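import Pool.Agent.Lib.MP_e3346b_ag_h37.EndM

/-!
# MP_e3346b_ag: rings of small Gorenstein colength (helper37)

Let `S` be an Artinian local ring of embedding dimension `n` with canonical module `E`, which is a
quotient of an Artinian Gorenstein local ring by an ideal of length at most `n`. Then some linear
map `E → S` takes a value outside the square of the maximal ideal.
-/

set_option autoImplicit false

universe u v

namespace Pool.Agent.MP_e3346b_h37

open Pool.Agent.MP_e3346b IsLocalRing

section Gor

variable {G : Type u} [CommRing G] [IsLocalRing G]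

lemma socle_unique (hG : Module.Injective G G) (s t : G) (hs0 : s ≠ 0)
    (hs : ∀ a ∈ maximalIdeal G, a * s = 0) (ht : ∀ a ∈ maximalIdeal G, a * t = 0) :
    ∃ c : G, c * s = t := by
  let φ : (G ⧸ maximalIdeal G) →ₗ[G] G :=
    Submodule.liftQ _ (LinearMap.toSpanSingleton G G s) (by
      intro a ha
      rw [LinearMap.mem_ker, LinearMap.toSpanSingleton_apply]
      exact hs a ha)
  let ψ : (G ⧸ maximalIdeal G) →ₗ[G] G :=
    Submodule.liftQ _ (LinearMap.toSpanSingleton G G t) (by
      intro a ha
      rw [LinearMap.mem_ker, LinearMap.toSpanSingleton_apply]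
      exact ht a ha)
  have hφ : Function.Injective φ := by
    rw [← LinearMap.ker_eq_bot, eq_bot_iff]
    intro a ha
    obtain ⟨a, rfl⟩ := Submodule.mkQ_surjective _ a
    have h1 : a * s = 0 := ha
    rw [Submodule.mem_bot, Submodule.mkQ_apply, Submodule.Quotient.mk_eq_zero]
    by_contra hu
    have hu2 : IsUnit a := by
      rwa [IsLocalRing.mem_maximalIdeal, mem_nonunits_iff, not_not] at hu
    exact hs0 ((hu2.mul_right_eq_zero).mp h1)
  obtain ⟨h, hh⟩ := hG.out φ hφ ψ
  have h1 := hh (Submodule.Quotient.mk 1)
  have h2 : φ (Submodule.Quotient.mk 1) = s := by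
    change (1 : G) • s = s
    rw [one_smul]
  have h3 : ψ (Submodule.Quotient.mk 1) = t := by
    change (1 : G) • t = t
    rw [one_smul]
  rw [h2, h3] at h1
  refine ⟨h 1, ?_⟩
  rw [← h1, mul_comm]
  have h4 := h.map_smul s 1
  rw [smul_eq_mul, mul_one, smul_eq_mul] at h4
  exact h4.symm

lemma len_one : Module.length G (G ⧸ maximalIdeal G) = 1 := by
  rw [Module.length_eq_one_iff]
  exact isSimpleModule_iff_isCoatom.mpr
    (Ideal.isMaximal_def.mp (IsLocalRing.maximalIdeal.isMaximal G))

/-- `Hom (k, G)` has length at most one. -/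
lemma len_hom_residue (hG : Module.Injective G G) :
    Module.length G ((G ⧸ maximalIdeal G) →ₗ[G] G) ≤ 1 := by
  by_cases hsub : Subsingleton ((G ⧸ maximalIdeal G) →ₗ[G] G)
  · rw [Module.length_eq_zero]
    exact zero_le_one
  · rw [not_subsingleton_iff_nontrivial] at hsub
    obtain ⟨φ, hφ⟩ := exists_ne (0 : (G ⧸ maximalIdeal G) →ₗ[G] G)
    have hval : ∀ (ψ : (G ⧸ maximalIdeal G) →ₗ[G] G) (a : G), a ∈ maximalIdeal G →
        a * ψ (Submodule.Quotient.mk 1) = 0 := by
      intro ψ a ha
      rw [← smul_eq_mul, ← map_smul, ← Submodule.Quotient.mk_smul, smul_eq_mul, mul_one,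
        (Submodule.Quotient.mk_eq_zero _).mpr ha, map_zero]
    have hext : ∀ ψ ψ' : (G ⧸ maximalIdeal G) →ₗ[G] G,
        ψ (Submodule.Quotient.mk 1) = ψ' (Submodule.Quotient.mk 1) → ψ = ψ' := by
      intro ψ ψ' h
      refine LinearMap.ext fun t => ?_
      obtain ⟨t, rfl⟩ := Submodule.mkQ_surjective _ t
      have h2 : (maximalIdeal G).mkQ t = t • (Submodule.Quotient.mk 1 : G ⧸ maximalIdeal G) := by
        rw [← Submodule.Quotient.mk_smul, smul_eq_mul, mul_one]
        rfl
      rw [h2, map_smul, map_smul, h]
    have hφ0 : φ (Submodule.Quotient.mk 1) ≠ 0 := by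
      intro h
      exact hφ (hext φ 0 (by rw [h]; rfl))
    let Θ : G →ₗ[G] ((G ⧸ maximalIdeal G) →ₗ[G] G) := LinearMap.toSpanSingleton G _ φ
    have hΘ : maximalIdeal G ≤ LinearMap.ker Θ := by
      intro a ha
      rw [LinearMap.mem_ker]
      exact hext _ _ (hval φ a ha)
    rw [← len_one (G := G)]
    refine Module.length_le_of_surjective (Submodule.liftQ _ Θ hΘ) ?_
    intro ψ
    obtain ⟨c, hc⟩ := socle_unique hG _ (ψ (Submodule.Quotient.mk 1)) hφ0 (hval φ) (hval ψ)
    refine ⟨Submodule.Quotient.mk c, hext _ _ ?_⟩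
    exact hc

/-- `length Hom (X, G) ≤ length X` for a self-injective local ring `G`. -/
lemma len_hom_le (hG : Module.Injective G G) (X : Type v) [AddCommGroup X] [Module G X]
    (hX : IsFiniteLength G X) : Module.length G (X →ₗ[G] G) ≤ Module.length G X := by
  induction hX with
  | @of_subsingleton X _ _ _ =>
    have : Subsingleton (X →ₗ[G] G) := ⟨fun f g => LinearMap.ext fun x => by
      rw [Subsingleton.elim x 0, map_zero, map_zero]⟩
    rw [Module.length_eq_zero]
    exact zero_le
  | @of_simple_quotient X _ _ N hs hN ih =>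
    obtain ⟨J, hJ, ⟨e⟩⟩ := isSimpleModule_iff_quot_maximal.mp hs
    rw [IsLocalRing.eq_maximalIdeal hJ] at e
    let res : (X →ₗ[G] G) →ₗ[G] (N →ₗ[G] G) := LinearMap.lcomp G G N.subtype
    have hres : ∀ f : X →ₗ[G] G, f ∈ LinearMap.ker res → N ≤ LinearMap.ker f := by
      intro f hf y hy
      have h1 := LinearMap.congr_fun (LinearMap.mem_ker.mp hf) ⟨y, hy⟩
      exact h1
    have h1 : Module.length G (X →ₗ[G] G) =
        Module.length G (LinearMap.ker res) + Module.length G (LinearMap.range res) := by
      have h0 : Module.length G ((X →ₗ[G] G) ⧸ LinearMap.ker res) =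
          Module.length G (LinearMap.range res) := (LinearMap.quotKerEquivRange res).length_eq
      rw [← h0]
      exact len_add (S := G) (M := X →ₗ[G] G) (LinearMap.ker res)
    have h2 : Module.length G (LinearMap.ker res) ≤ 1 := by
      refine le_trans ?_ (len_hom_residue hG)
      let Φ : LinearMap.ker res →ₗ[G] ((G ⧸ maximalIdeal G) →ₗ[G] G) :=
        { toFun := fun f => (N.liftQ f.1 (hres f.1 f.2)).comp e.symm.toLinearMap
          map_add' := fun f g => by
            refine LinearMap.ext fun t => ?_
            obtain ⟨t, rfl⟩ := e.surjective t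
            obtain ⟨t, rfl⟩ := Submodule.mkQ_surjective _ t
            simp
          map_smul' := fun c f => by
            refine LinearMap.ext fun t => ?_
            obtain ⟨t, rfl⟩ := e.surjective t
            obtain ⟨t, rfl⟩ := Submodule.mkQ_surjective _ t
            simp }
      refine Module.length_le_of_injective Φ ?_
      intro f g hfg
      apply Subtype.ext
      refine LinearMap.ext fun t => ?_
      have h3 := LinearMap.congr_fun hfg (e (N.mkQ t))
      simpa [Φ] using h3
    have h3 : Module.length G (LinearMap.range res) ≤ Module.length G (N →ₗ[G] G) :=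
      Module.length_le_of_injective (LinearMap.range res).subtype (Submodule.injective_subtype _)
    have h4 := len_add (S := G) N
    have h5 : Module.length G (X ⧸ N) = 1 := Module.length_eq_one_iff.mpr hs
    rw [h1, h4, h5, add_comm]
    exact add_le_add (h3.trans ih) h2

end Gor

/-- The canonical module of a quotient of small colength of a Gorenstein ring has a homomorphism
to the ring with a value outside the square of the maximal ideal. -/
theorem exists_hom_of_colength {S : Type u} [CommRing S] [IsLocalRing S] [IsArtinianRing S]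
    {E : Type u} [AddCommGroup E] [Module S E] [Module.Finite S E]
    (hlen : ∀ (X : Type u) [AddCommGroup X] [Module S X], Module.Finite S X →
      Module.length S (X →ₗ[S] E) = Module.length S X)
    (G : Type u) [CommRing G] [IsLocalRing G] [IsArtinianRing G] (hG : Module.Injective G G)
    (π : G →+* S) (hπ : Function.Surjective π) (n : ℕ)
    (hn : Module.length S (S ⧸ (maximalIdeal S * maximalIdeal S)) = (n + 1 : ℕ))
    (hcol : Module.length G (RingHom.ker π) ≤ n) :
    ∃ (ψ : E →ₗ[S] S) (w : E), ψ w ∉ maximalIdeal S * maximalIdeal S := by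
  classical
  let _ : Module G E := Module.compHom E π
  let _ : Algebra G S := π.toAlgebra
  have _ : IsScalarTower G S E := ⟨fun a b x => by
    change (π a * b) • x = π a • (b • x)
    rw [mul_smul]⟩
  have hact : ∀ (a : G) (e : E), a • e = π a • e := fun a e => rfl
  have hactS : ∀ (a : G) (s : S), a • s = π a * s := fun a s => rfl
  have hlocal : IsLocalHom π := IsLocalHom.of_surjective π hπ
  have hmπ : ∀ a : G, π a ∈ maximalIdeal S ↔ a ∈ maximalIdeal G := fun a => by
    rw [IsLocalRing.mem_maximalIdeal, IsLocalRing.mem_maximalIdeal, mem_nonunits_iff,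
      mem_nonunits_iff, isUnit_map_iff]
  obtain ⟨a, ha⟩ : ∃ a : Ideal G, a = RingHom.ker π := ⟨_, rfl⟩
  have ham : ∀ c, c ∈ a ↔ π c = 0 := fun c => by rw [ha, RingHom.mem_ker]
  -- lengths over `G` and over `S`
  have hlS : ∀ (X : Type u) [AddCommGroup X] [Module S X] [Module G X] [IsScalarTower G S X],
      Module.length G X = Module.length S X := by
    intro X _ _ _ _
    exact Module.length_eq_of_surjective (S := G) (R := S) (M := X) hπ
  have hmS : maximalIdeal S ≠ ⊤ := (IsLocalRing.maximalIdeal.isMaximal S).ne_top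
  -- a socle element of `E`
  have hEfin : Module.length S E = Module.length S S := by
    rw [← hlen S inferInstance]
    exact ((LinearMap.ringLmapEquivSelf S S E).length_eq).symm
  have hres1 : Module.length S ((S ⧸ maximalIdeal S) →ₗ[S] E) = 1 := by
    rw [hlen _ inferInstance]
    exact len_one
  have hsimple : IsSimpleModule S ((S ⧸ maximalIdeal S) →ₗ[S] E) :=
    Module.length_eq_one_iff.mp hres1
  have hnt : Nontrivial ((S ⧸ maximalIdeal S) →ₗ[S] E) := IsSimpleModule.nontrivial S _
  obtain ⟨φ, hφ⟩ := exists_ne (0 : (S ⧸ maximalIdeal S) →ₗ[S] E)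
  have hext : ∀ ψ ψ' : (S ⧸ maximalIdeal S) →ₗ[S] E,
      ψ (Submodule.Quotient.mk 1) = ψ' (Submodule.Quotient.mk 1) → ψ = ψ' := by
    intro ψ ψ' h
    refine LinearMap.ext fun t => ?_
    obtain ⟨t, rfl⟩ := Submodule.mkQ_surjective _ t
    have h2 : (maximalIdeal S).mkQ t = t • (Submodule.Quotient.mk 1 : S ⧸ maximalIdeal S) := by
      rw [← Submodule.Quotient.mk_smul, smul_eq_mul, mul_one]
      rfl
    rw [h2, map_smul, map_smul, h]
  obtain ⟨e0, he0⟩ : ∃ e : E, e = φ (Submodule.Quotient.mk 1) := ⟨_, rfl⟩
  have he0ne : e0 ≠ 0 := by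
    intro h
    exact hφ (hext φ 0 (by rw [← he0, h]; rfl))
  have he0m : ∀ t ∈ maximalIdeal S, t • e0 = 0 := by
    intro t ht
    rw [he0, ← map_smul, ← Submodule.Quotient.mk_smul, smul_eq_mul, mul_one,
      (Submodule.Quotient.mk_eq_zero _).mpr ht, map_zero]
  have hess : ∀ e : E, e ≠ 0 → ∃ c : S, c • e = e0 := by
    intro e he
    let J : Ideal S := LinearMap.ker (LinearMap.toSpanSingleton S E e)
    have hJ : ∀ t, t ∈ J ↔ t • e = 0 := fun t => by
      rw [LinearMap.mem_ker, LinearMap.toSpanSingleton_apply]
    have hJtop : J ≠ ⊤ := by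
      intro h
      apply he
      have h1 : (1 : S) ∈ J := by rw [h]; exact Submodule.mem_top
      rw [hJ, one_smul] at h1
      exact h1
    obtain ⟨s, hsJ, hs⟩ := exists_socle J hJtop
    rw [hJ] at hsJ
    let φ1 : (S ⧸ maximalIdeal S) →ₗ[S] E :=
      Submodule.liftQ _ (LinearMap.toSpanSingleton S E (s • e)) (by
        intro t ht
        rw [LinearMap.mem_ker, LinearMap.toSpanSingleton_apply]
        have h1 := hs t ht
        rw [hJ, mul_comm, mul_smul] at h1
        exact h1)
    have hφ1 : φ1 (Submodule.Quotient.mk 1) = s • e := by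
      change (1 : S) • (s • e) = s • e
      rw [one_smul]
    have hφ1ne : φ1 ≠ 0 := by
      intro h
      apply hsJ
      rw [← hφ1, h]
      rfl
    have h2 := IsSimpleModule.toSpanSingleton_surjective S hφ1ne
    obtain ⟨c, hc⟩ := h2 φ
    refine ⟨c * s, ?_⟩
    rw [mul_smul, ← hφ1, he0, ← hc]
    rfl
  -- a socle element of `G`
  obtain ⟨s0, hs0, hs0m⟩ := exists_socle (⊥ : Ideal G) bot_ne_top
  have hs0ne : s0 ≠ 0 := fun h => hs0 (by rw [h]; exact zero_mem _)
  have hs0m' : ∀ t ∈ maximalIdeal G, t * s0 = 0 := fun t ht => by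
    have h1 := hs0m t ht
    rw [Submodule.mem_bot] at h1
    rw [mul_comm]
    exact h1
  let α : (G ⧸ maximalIdeal G) →ₗ[G] E :=
    Submodule.liftQ _ (LinearMap.toSpanSingleton G E e0) (by
      intro t ht
      rw [LinearMap.mem_ker, LinearMap.toSpanSingleton_apply, hact]
      exact he0m _ ((hmπ t).mpr ht))
  have hα1 : α (Submodule.Quotient.mk 1) = e0 := by
    change (1 : G) • e0 = e0
    rw [one_smul]
  have hα : Function.Injective α := by
    rw [← LinearMap.ker_eq_bot, eq_bot_iff]
    intro t ht
    obtain ⟨t, rfl⟩ := Submodule.mkQ_surjective _ t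
    have h1 : t • e0 = 0 := ht
    rw [Submodule.mem_bot, Submodule.mkQ_apply, Submodule.Quotient.mk_eq_zero]
    by_contra hu
    have hu2 : IsUnit t := by
      rwa [IsLocalRing.mem_maximalIdeal, mem_nonunits_iff, not_not] at hu
    exact he0ne ((hu2.smul_eq_zero).mp h1)
  let β : (G ⧸ maximalIdeal G) →ₗ[G] G :=
    Submodule.liftQ _ (LinearMap.toSpanSingleton G G s0) (by
      intro t ht
      rw [LinearMap.mem_ker, LinearMap.toSpanSingleton_apply]
      exact hs0m' t ht)
  have hβ1 : β (Submodule.Quotient.mk 1) = s0 := by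
    change (1 : G) • s0 = s0
    rw [one_smul]
  obtain ⟨g, hg⟩ := hG.out α hα β
  have hg0 : g e0 = s0 := by
    rw [← hα1, hg, hβ1]
  have hgmul : ∀ (c : G) (e : E), g (π c • e) = c * g e := fun c e => by
    have h1 := g.map_smul c e
    rw [hact] at h1
    exact h1
  have hginj : Function.Injective g := by
    rw [← LinearMap.ker_eq_bot, eq_bot_iff]
    intro e he
    rw [LinearMap.mem_ker] at he
    rw [Submodule.mem_bot]
    by_contra hne
    obtain ⟨c, hc⟩ := hess e hne
    obtain ⟨c, rfl⟩ := hπ c
    apply hs0ne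
    rw [← hg0, ← hc, hgmul, he, mul_zero]
  -- the annihilator of the kernel
  let N : Submodule G G :=
    { carrier := {y | ∀ c ∈ a, c * y = 0}
      add_mem' := fun {y z} hy hz c hc => by rw [mul_add, hy c hc, hz c hc, add_zero]
      zero_mem' := fun c _ => mul_zero c
      smul_mem' := fun t y hy c hc => by
        rw [smul_eq_mul, mul_left_comm, hy c hc, mul_zero] }
  have hN : ∀ y, y ∈ N ↔ ∀ c ∈ a, c * y = 0 := fun y => Iff.rfl
  have hgN : LinearMap.range g ≤ N := by
    rintro _ ⟨e, rfl⟩
    rw [hN]
    intro c hc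
    rw [← hgmul, (ham c).mp hc, zero_smul, map_zero]
  have hfinG : ∀ (X : Type u) [AddCommGroup X] [Module G X], Module.Finite G X →
      IsFiniteLength G X := by
    intro X _ _ _
    exact isFiniteLength_iff_isNoetherian_isArtinian.mpr ⟨inferInstance, inferInstance⟩
  have hNle : Module.length G N ≤ Module.length G (G ⧸ a) := by
    refine le_trans ?_ (len_hom_le hG (G ⧸ a) (hfinG _ inferInstance))
    let Φ : N →ₗ[G] ((G ⧸ a) →ₗ[G] G) :=
      { toFun := fun y => a.liftQ (LinearMap.toSpanSingleton G G y.1) (fun c hc => by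
          rw [LinearMap.mem_ker, LinearMap.toSpanSingleton_apply]
          exact (hN _).mp y.2 c hc)
        map_add' := fun y z => by
          refine LinearMap.ext fun t => ?_
          obtain ⟨t, rfl⟩ := Submodule.mkQ_surjective _ t
          change t • (y.1 + z.1) = t • y.1 + t • z.1
          rw [smul_add]
        map_smul' := fun c y => by
          refine LinearMap.ext fun t => ?_
          obtain ⟨t, rfl⟩ := Submodule.mkQ_surjective _ t
          change t • (c • y.1) = c • (t • y.1)
          rw [smul_comm] }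
    refine Module.length_le_of_injective Φ ?_
    intro y z hyz
    apply Subtype.ext
    have h3 := LinearMap.congr_fun hyz (Submodule.Quotient.mk 1)
    have h4 : ∀ y : N, Φ y (Submodule.Quotient.mk 1) = y.1 := fun y => by
      change (1 : G) • y.1 = y.1
      rw [one_smul]
    rw [h4, h4] at h3
    exact h3
  have hGa : Module.length G (G ⧸ a) = Module.length G S := by
    have hsur : Function.Surjective (Algebra.linearMap G S) := hπ
    have hker : LinearMap.ker (Algebra.linearMap G S) = a := by
      ext c
      rw [LinearMap.mem_ker, ham]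
      rfl
    rw [← hker]
    exact ((Algebra.linearMap G S).quotKerEquivOfSurjective hsur).length_eq
  have hEG : Module.length G E = Module.length G S := by
    rw [hlS E, hlS S, hEfin]
  have hrange : LinearMap.range g = N := by
    have h1 : Module.length G (LinearMap.range g) = Module.length G E :=
      (LinearEquiv.ofInjective g hginj).length_eq.symm
    have h2 : Module.length G N ≤ Module.length G (LinearMap.range g) := by
      rw [h1, hEG, ← hGa]
      exact hNle
    by_contra hne
    have h3 : (LinearMap.range g).submoduleOf N ≠ ⊤ := by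
      intro htop
      apply hne
      apply le_antisymm hgN
      intro y hy
      have h5 : (⟨y, hy⟩ : N) ∈ (LinearMap.range g).submoduleOf N := by
        rw [htop]
        exact Submodule.mem_top
      exact h5
    have h4 := Submodule.length_lt h3
    rw [(Submodule.submoduleOfEquivOfLe hgN).length_eq] at h4
    exact absurd h2 (not_le.mpr h4)
  -- the count
  by_contra hcon
  have hcon2 : ∀ (ψ : E →ₗ[S] S) (w : E), ψ w ∈ maximalIdeal S * maximalIdeal S := by
    intro ψ w
    by_contra h
    exact hcon ⟨ψ, w, h⟩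
  let ψ : E →ₗ[S] S :=
    { toFun := fun e => π (g e)
      map_add' := fun x y => by rw [map_add, map_add]
      map_smul' := fun c x => by
        obtain ⟨c, rfl⟩ := hπ c
        rw [hgmul, map_mul]
        rfl }
  have hNm : N ≤ (maximalIdeal S * maximalIdeal S).comap π := by
    intro y hy
    rw [← hrange] at hy
    obtain ⟨w, rfl⟩ := hy
    exact hcon2 ψ w
  obtain ⟨Q, hQ⟩ : ∃ Q : Ideal G, Q = (maximalIdeal S * maximalIdeal S).comap π := ⟨_, rfl⟩
  have hGQ : Module.length G (G ⧸ Q) = (n + 1 : ℕ) := by
    let q : G →ₗ[G] (S ⧸ (maximalIdeal S * maximalIdeal S)) :=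
      ((maximalIdeal S * maximalIdeal S).mkQ.restrictScalars G).comp (Algebra.linearMap G S)
    have hq : Function.Surjective q :=
      (Submodule.mkQ_surjective _).comp (g := (maximalIdeal S * maximalIdeal S).mkQ) hπ
    have hqk : LinearMap.ker q = Q := by
      ext c
      rw [LinearMap.mem_ker, hQ, Ideal.mem_comap]
      exact Submodule.Quotient.mk_eq_zero _
    rw [← hqk, (q.quotKerEquivOfSurjective hq).length_eq, hlS, hn]
  have hQN : Module.length G (G ⧸ Q) ≤ Module.length G (G ⧸ N) := by
    have hle : N ≤ Q := by rw [hQ]; exact hNm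
    refine Module.length_le_of_surjective (Submodule.mapQ N Q LinearMap.id hle) ?_
    intro t
    obtain ⟨t, rfl⟩ := Submodule.mkQ_surjective _ t
    exact ⟨N.mkQ t, rfl⟩
  have hNa : Module.length G (G ⧸ N) ≤ Module.length G a := by
    refine le_trans ?_ (len_hom_le hG a (hfinG _ inferInstance))
    let Θ : G →ₗ[G] (a →ₗ[G] G) := LinearMap.toSpanSingleton G _ a.subtype
    have hΘ : ∀ c, c ∈ LinearMap.ker Θ ↔ c ∈ N := by
      intro c
      rw [LinearMap.mem_ker, hN]
      constructor
      · intro h d hd
        have h1 := LinearMap.congr_fun h ⟨d, hd⟩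
        have h2 : c * d = 0 := h1
        rw [mul_comm]
        exact h2
      · intro h
        refine LinearMap.ext fun d => ?_
        change c * d.1 = 0
        rw [mul_comm]
        exact h d.1 d.2
    have hΘ2 : LinearMap.ker Θ = N := by
      ext c
      exact hΘ c
    have h0 : Module.length G (G ⧸ LinearMap.ker Θ) =
        Module.length G (LinearMap.range Θ) := (LinearMap.quotKerEquivRange Θ).length_eq
    rw [← hΘ2, h0]
    exact Module.length_le_of_injective (LinearMap.range Θ).subtype
      (Submodule.injective_subtype _)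
  have hfinal : ((n + 1 : ℕ) : ℕ∞) ≤ (n : ℕ) := by
    rw [← hGQ]
    refine hQN.trans (hNa.trans ?_)
    rw [ha]
    exact hcol
  rw [Nat.cast_le] at hfinal
  omega

end Pool.Agent.MP_e3346b_h37
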