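import Pool.Agent.Lib.MP_e3346b_ag_h37.Main

/-!
# MP_e3346b_ag: quotients of the canonical module, the inequality (helper37)
-/

set_option autoImplicit false

universe u

namespace Pool.Agent.MP_e3346b_h37

open Pool.Agent.MP_e3346b Pool.Agent.MP_e3346b_h58 IsLocalRing

variable {S : Type u} [CommRing S] [IsLocalRing S] {E : Type u} [AddCommGroup E] [Module S E]
  {r m p q : ℕ}

omit [IsLocalRing S] in
/-- `r length (S / J) ≤ length (P / J S ^ r) + length (S ^ r / P)` -/
theorem len_ambient (J : Ideal S) (P : Submodule S (Fin r → S)) (X : Submodule S P)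
    (hX : ∀ v : P, v ∈ X ↔ ∀ i, (v : Fin r → S) i ∈ J)
    (hJP : Submodule.pi Set.univ (fun _ : Fin r => J) ≤ P) :
    r * Module.length S (S ⧸ J) ≤
      Module.length S (P ⧸ X) + Module.length S ((Fin r → S) ⧸ P) := by
  set Y : Submodule S (Fin r → S) := Submodule.pi Set.univ (fun _ : Fin r => J) with hY
  have e1 : Module.length S ((Fin r → S) ⧸ Y) = r * Module.length S (S ⧸ J) := by
    rw [hY, (Submodule.quotientPi (fun _ : Fin r => J)).length_eq, Module.length_pi]
    simp
  have e2 := len_add (S := S) (Submodule.map Y.mkQ P)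
  have e3 : Module.length S (((Fin r → S) ⧸ Y) ⧸ Submodule.map Y.mkQ P) =
      Module.length S ((Fin r → S) ⧸ P) :=
    (Submodule.quotientQuotientEquivQuotient Y P hJP).length_eq
  rw [← e1, e2, e3]
  refine add_le_add ?_ le_rfl
  let g : P →ₗ[S] Submodule.map Y.mkQ P :=
    (Y.mkQ.comp P.subtype).codRestrict _ fun v => ⟨v, v.2, rfl⟩
  have hg : X ≤ LinearMap.ker g := by
    intro v hv
    rw [LinearMap.mem_ker]
    apply Subtype.ext
    change (Submodule.Quotient.mk (v : Fin r → S) : (Fin r → S) ⧸ Y) = 0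
    rw [Submodule.Quotient.mk_eq_zero]
    exact fun i _ => (hX v).mp hv i
  refine Module.length_le_of_surjective (Submodule.liftQ _ g hg) ?_
  rintro ⟨_, v, hv, rfl⟩
  exact ⟨Submodule.Quotient.mk ⟨v, hv⟩, rfl⟩

omit [IsLocalRing S] in
/-- `length (E / x E) ≤ length (S / x S)` -/
theorem len_quot_principal [IsArtinianRing S] [Module.Finite S E]
    (hfaith : ∀ c : S, (∀ e : E, c • e = 0) → c = 0)
    (hend : ∀ φ : E →ₗ[S] E, ∃ c : S, ∀ e, φ e = c • e)
    (hlen : ∀ (X : Type u) [AddCommGroup X] [Module S X], Module.Finite S X →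
      Module.length S (X →ₗ[S] E) = Module.length S X) (x : S) :
    Module.length S (E ⧸ (Ideal.span {x} • ⊤ : Submodule S E)) ≤
      Module.length S (S ⧸ Ideal.span {x}) := by
  let μ : S →ₗ[S] S := x • LinearMap.id
  have h1 := dual_len hfaith hend hlen (Ideal.span {x}) (LinearMap.ker μ) (by
    intro c
    rw [LinearMap.mem_ker]
    constructor
    · intro h y hy
      obtain ⟨a, rfl⟩ := Ideal.mem_span_singleton'.mp hy
      have h' : x * c = 0 := h
      calc c * (a * x) = a * (x * c) := by ring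
        _ = 0 := by rw [h', mul_zero]
    · intro h
      have := h x (Ideal.mem_span_singleton_self x)
      change x * c = 0
      rw [mul_comm]
      exact this)
  have h2 : Module.length S (S ⧸ LinearMap.ker μ) = Module.length S (Ideal.span {x}) := by
    rw [μ.quotKerEquivRange.length_eq]
    have : LinearMap.range μ = Ideal.span {x} := by
      ext y
      rw [LinearMap.mem_range, Ideal.mem_span_singleton']
      constructor
      · rintro ⟨a, rfl⟩
        exact ⟨a, by simp [μ, mul_comm]⟩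
      · rintro ⟨a, rfl⟩
        exact ⟨a, by simp [μ, mul_comm]⟩
    rw [this]
  have h3 := len_add (S := S) (M := S) (Ideal.span {x})
  rw [h2, h3] at h1
  have hfin : Module.length S (Ideal.span {x}) ≠ ⊤ := Module.length_ne_top
  rw [add_comm] at h1
  exact (ENat.add_le_add_iff_left hfin).mp h1

/-- a socle element modulo `J` -/
lemma exists_socle [IsArtinianRing S] (J : Ideal S) (hJ : J ≠ ⊤) :
    ∃ s : S, s ∉ J ∧ ∀ t ∈ maximalIdeal S, s * t ∈ J := by
  classical
  have hnil : IsNilpotent (maximalIdeal S) :=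
    (isArtinianRing_iff_isNilpotent_maximalIdeal S).mp inferInstance
  have hex : ∃ k : ℕ, (maximalIdeal S) ^ k ≤ J := by
    obtain ⟨k, hk⟩ := hnil
    exact ⟨k, by rw [hk]; exact bot_le⟩
  have hk := Nat.find_spec hex
  have hk0 : Nat.find hex ≠ 0 := by
    intro h
    rw [h, pow_zero, Ideal.one_eq_top, top_le_iff] at hk
    exact hJ hk
  obtain ⟨k, hkk⟩ := Nat.exists_eq_succ_of_ne_zero hk0
  have hnot := Nat.find_min hex (m := k) (by omega)
  obtain ⟨s, hs, hsJ⟩ := SetLike.not_le_iff_exists.mp hnot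
  refine ⟨s, hsJ, fun t ht => hk ?_⟩
  rw [hkk, Nat.succ_eq_add_one, pow_succ]
  exact Ideal.mul_mem_mul hs ht

/-- Let `P` be the preimage in `S ^ r` of a submodule `W` of `E` containing `x E`; then
`P / x S ^ r` needs at least `r` generators. -/
theorem core_len [IsArtinianRing S] (hr : 2 ≤ r)
    (F : (Fin r → S) →ₗ[S] E) (hF : Function.Surjective F)
    (hmem : ∀ v ∈ LinearMap.ker F, ∀ i, v i ∈ maximalIdeal S)
    (hfaith : ∀ c : S, (∀ e : E, c • e = 0) → c = 0)
    (hend : ∀ φ : E →ₗ[S] E, ∃ c : S, ∀ e, φ e = c • e)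
    (hlen : ∀ (X : Type u) [AddCommGroup X] [Module S X], Module.Finite S X →
      Module.length S (X →ₗ[S] E) = Module.length S X)
    (W : Submodule S E) (x : S) (hxm : x ∈ maximalIdeal S) (hxW : ∀ e : E, x • e ∈ W)
    (P : Submodule S (Fin r → S)) (hPm : ∀ v, v ∈ P ↔ F v ∈ W) (X : Submodule S P)
    (hX : ∀ v : P, v ∈ X ↔ ∃ w : Fin r → S, (v : Fin r → S) = x • w) :
    (r : ℕ∞) ≤
      Module.length S ((P ⧸ X) ⧸ (maximalIdeal S • ⊤ : Submodule S (P ⧸ X))) := by
  classical
  have hfin : Module.Finite S E := Module.Finite.of_surjective F hF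
  obtain ⟨J, hJdef⟩ : ∃ J : Ideal S, J = Ideal.span {x} := ⟨_, rfl⟩
  have hJm : ∀ c, c ∈ J ↔ ∃ a, a * x = c := fun c => by
    rw [hJdef, Ideal.mem_span_singleton']
  have hJtop : ∀ e : E, e ∈ (J • ⊤ : Submodule S E) ↔ ∃ e', x • e' = e := by
    intro e
    rw [hJdef]
    constructor
    · intro he
      rw [Submodule.ideal_span_singleton_smul] at he
      obtain ⟨e', -, h⟩ := (Submodule.mem_smul_pointwise_iff_exists _ _ _).mp he
      exact ⟨e', h⟩
    · rintro ⟨e', rfl⟩
      exact Submodule.smul_mem_smul (Ideal.mem_span_singleton_self x) trivial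
  have hXJ : ∀ v : P, v ∈ X ↔ ∀ i, (v : Fin r → S) i ∈ J := by
    intro v
    rw [hX]
    constructor
    · rintro ⟨w, hw⟩ i
      rw [hw, Pi.smul_apply, smul_eq_mul, mul_comm]
      exact (hJm _).mpr ⟨w i, rfl⟩
    · intro h
      choose w hw using fun i => (hJm _).mp (h i)
      refine ⟨w, ?_⟩
      ext i
      rw [← hw i, Pi.smul_apply, smul_eq_mul, mul_comm]
  have hJP : Submodule.pi Set.univ (fun _ : Fin r => J) ≤ P := by
    intro v hv
    choose w hw using fun i => (hJm _).mp (hv i (Set.mem_univ i))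
    have : v = x • w := by
      ext i
      rw [← hw i, Pi.smul_apply, smul_eq_mul, mul_comm]
    rw [hPm, this, map_smul]
    exact hxW _
  have h2 := len_ambient J P X hXJ hJP
  have h3 := len_quot_principal hfaith hend hlen x
  rw [← hJdef] at h3
  have hDP : Module.length S ((Fin r → S) ⧸ P) = Module.length S (E ⧸ W) := by
    have hk : LinearMap.ker (W.mkQ.comp F) = P := by
      ext v
      rw [LinearMap.mem_ker, LinearMap.comp_apply, Submodule.mkQ_apply,
        Submodule.Quotient.mk_eq_zero, hPm]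
    rw [← hk]
    exact ((W.mkQ.comp F).quotKerEquivOfSurjective
      ((Submodule.mkQ_surjective W).comp hF)).length_eq
  rw [hDP] at h2
  have hJW : (J • ⊤ : Submodule S E) ≤ W := by
    intro e he
    obtain ⟨e', rfl⟩ := (hJtop e).mp he
    exact hxW e'
  have h4 : Module.length S (E ⧸ (J • ⊤ : Submodule S E)) =
      Module.length S (Submodule.map (J • ⊤ : Submodule S E).mkQ W) +
        Module.length S (E ⧸ W) := by
    have e2 := len_add (S := S) (Submodule.map (J • ⊤ : Submodule S E).mkQ W)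
    rw [(Submodule.quotientQuotientEquivQuotient (J • ⊤ : Submodule S E) W hJW).length_eq] at e2
    exact e2
  have hJtop' : J ≠ ⊤ := by
    intro h
    have : J ≤ maximalIdeal S := by
      rw [hJdef, Ideal.span_le, Set.singleton_subset_iff]
      exact hxm
    exact (IsLocalRing.maximalIdeal.isMaximal S).ne_top (top_le_iff.mp (h ▸ this))
  -- natural numbers
  obtain ⟨l, hl⟩ := ENat.ne_top_iff_exists.mp
    (Module.length_ne_top (R := S) (M := S ⧸ J))
  obtain ⟨nN, hnN⟩ := ENat.ne_top_iff_exists.mp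
    (Module.length_ne_top (R := S) (M := P ⧸ X))
  obtain ⟨D, hD⟩ := ENat.ne_top_iff_exists.mp
    (Module.length_ne_top (R := S) (M := E ⧸ W))
  obtain ⟨a, ha⟩ := ENat.ne_top_iff_exists.mp
    (Module.length_ne_top (R := S)
      (M := (P ⧸ X) ⧸ (maximalIdeal S • ⊤ : Submodule S (P ⧸ X))))
  obtain ⟨b, hb⟩ := ENat.ne_top_iff_exists.mp
    (Module.length_ne_top (R := S) (M := Submodule.map (J • ⊤ : Submodule S E).mkQ W))
  rw [h4, ← hb, ← hD, ← hl] at h3
  rw [← hnN, ← hD, ← hl] at h2
  norm_cast at h2 h3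
  -- `J` kills `P / X`
  have hkillJ : ∀ c ∈ J, ∀ v : P ⧸ X, c • v = 0 := by
    intro c hc v
    obtain ⟨v, rfl⟩ := Submodule.mkQ_surjective _ v
    rw [← map_smul, Submodule.mkQ_apply, Submodule.Quotient.mk_eq_zero, hXJ]
    intro i
    exact J.mul_mem_right _ hc
  rw [← ha]
  by_contra hcon
  have har : a < r := by
    have := not_le.mp hcon
    exact_mod_cast this
  rcases eq_or_ne W (J • ⊤ : Submodule S E) with hWJ | hWJ
  · -- `W = x E`
    obtain ⟨s, hsJ, hs⟩ := exists_socle J hJtop'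
    have hPmax : ∀ v ∈ P, ∀ i, v i ∈ maximalIdeal S := by
      intro v hv i
      have h5 := (hPm v).mp hv
      rw [hWJ, hJtop] at h5
      obtain ⟨e', he'⟩ := h5
      obtain ⟨w, rfl⟩ := hF e'
      have h6 : v - x • w ∈ LinearMap.ker F := by
        rw [LinearMap.mem_ker, map_sub, map_smul, he', sub_self]
      have h7 := (maximalIdeal S).add_mem (hmem _ h6 i)
        ((maximalIdeal S).mul_mem_right (w i) hxm)
      have h8 : (v - x • w) i + x * w i = v i := by
        rw [Pi.sub_apply, Pi.smul_apply, smul_eq_mul, sub_add_cancel]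
      rwa [h8] at h7
    set B : Ideal S := J ⊔ Ideal.span {s} with hB
    have hkillB : ∀ c ∈ B, ∀ v : P ⧸ X, c • v = 0 := by
      intro c hc v
      obtain ⟨c1, hc1, c2, hc2, rfl⟩ := Submodule.mem_sup.mp hc
      rw [add_smul, hkillJ c1 hc1, zero_add]
      obtain ⟨t, rfl⟩ := Ideal.mem_span_singleton'.mp hc2
      obtain ⟨v, rfl⟩ := Submodule.mkQ_surjective _ v
      rw [← map_smul, Submodule.mkQ_apply, Submodule.Quotient.mk_eq_zero, hXJ]
      intro i
      change t * s * (v : Fin r → S) i ∈ J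
      rw [mul_assoc]
      exact J.mul_mem_left _ (hs _ (hPmax v v.2 i))
    have h5 := length_le_mul (S := S) (P ⧸ X) B hkillB
    have h6 : Module.length S (S ⧸ J) =
        Module.length S (Submodule.map J.mkQ B) + Module.length S (S ⧸ B) := by
      have e2 := len_add (S := S) (Submodule.map (Submodule.mkQ J) B)
      rw [(Submodule.quotientQuotientEquivQuotient (J : Submodule S S) B le_sup_left).length_eq]
        at e2
      exact e2
    have hBnt : Nontrivial (Submodule.map (Submodule.mkQ J) B) := by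
      refine ⟨⟨⟨Submodule.mkQ J s, s, ?_, rfl⟩, 0, ?_⟩⟩
      · exact (le_sup_right : Ideal.span {s} ≤ B) (Ideal.mem_span_singleton_self s)
      · intro h
        have h7 := congrArg Subtype.val h
        change (Submodule.Quotient.mk s : S ⧸ J) = 0 at h7
        rw [Submodule.Quotient.mk_eq_zero] at h7
        exact hsJ h7
    have h7 : 1 ≤ Module.length S (Submodule.map (Submodule.mkQ J) B) :=
      Order.one_le_iff_pos.mpr Module.length_pos
    obtain ⟨l', hl'⟩ := ENat.ne_top_iff_exists.mp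
      (Module.length_ne_top (R := S) (M := S ⧸ B))
    obtain ⟨t, ht⟩ := ENat.ne_top_iff_exists.mp
      (Module.length_ne_top (R := S) (M := Submodule.map (Submodule.mkQ J) B))
    rw [← hl', ← hl, ← ht] at h6
    rw [← ht] at h7
    rw [← hnN, ← ha, ← hl'] at h5
    norm_cast at h5 h6 h7
    obtain ⟨r', rfl⟩ : ∃ r', r = r' + 1 := ⟨r - 1, by omega⟩
    have h8 : a * l' ≤ r' * l' := Nat.mul_le_mul_right _ (by omega)
    have h9 : (r' + 1) * l = r' * l + l := by ring
    have h10 : r' * l = r' * t + r' * l' := by rw [h6]; ring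
    have h11 : 1 * 1 ≤ r' * t := Nat.mul_le_mul (by omega) h7
    omega
  · -- `W` is bigger
    have h5 := length_le_mul (S := S) (P ⧸ X) J hkillJ
    rw [← hnN, ← ha, ← hl] at h5
    have hlt : (J • ⊤ : Submodule S E) < W := lt_of_le_of_ne hJW (Ne.symm hWJ)
    obtain ⟨e, heW, heJ⟩ := SetLike.exists_of_lt hlt
    have hnt : Nontrivial (Submodule.map (J • ⊤ : Submodule S E).mkQ W) := by
      refine ⟨⟨⟨(J • ⊤ : Submodule S E).mkQ e, e, heW, rfl⟩, 0, ?_⟩⟩
      intro h
      have h7 := congrArg Subtype.val h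
      change (Submodule.Quotient.mk e : E ⧸ (J • ⊤ : Submodule S E)) = 0 at h7
      rw [Submodule.Quotient.mk_eq_zero] at h7
      exact heJ h7
    have h7 : 1 ≤ Module.length S (Submodule.map (J • ⊤ : Submodule S E).mkQ W) :=
      Order.one_le_iff_pos.mpr Module.length_pos
    rw [← hb] at h7
    norm_cast at h5 h7
    obtain ⟨r', rfl⟩ : ∃ r', r = r' + 1 := ⟨r - 1, by omega⟩
    have h8 : a * l ≤ r' * l := Nat.mul_le_mul_right _ (by omega)
    have h9 : (r' + 1) * l = r' * l + l := by ring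
    omega

/-- The main inequality over an Artinian local ring. -/
theorem core_ineq [IsArtinianRing S] (hr : 2 ≤ r)
    (F : (Fin r → S) →ₗ[S] E) (hF : Function.Surjective F)
    (hmem : ∀ v ∈ LinearMap.ker F, ∀ i, v i ∈ maximalIdeal S)
    (G : (Fin m → S) →ₗ[S] (Fin r → S)) (hG : LinearMap.range G = LinearMap.ker F)
    (hfaith : ∀ c : S, (∀ e : E, c • e = 0) → c = 0)
    (hend : ∀ φ : E →ₗ[S] E, ∃ c : S, ∀ e, φ e = c • e)
    (hlen : ∀ (X : Type u) [AddCommGroup X] [Module S X], Module.Finite S X →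
      Module.length S (X →ₗ[S] E) = Module.length S X)
    (z : Fin p → E) (W : Submodule S E) (hW : Submodule.span S (Set.range z) = W)
    (x : S) (hxm : x ∈ maximalIdeal S) (hxW : ∀ e : E, x • e ∈ W)
    (y : Fin q → E) (hy : Submodule.span S (Set.range y) ⊔ W = ⊤)
    (f : Ideal S) (hfm : f ≤ maximalIdeal S)
    (hf : ∀ c : Fin q → S, ∑ i, c i • y i ∈ W → ∀ i, c i ∈ f) (hx : x ∉ maximalIdeal S * f) :
    r + q ≤ m + p := by
  obtain ⟨P, hP⟩ : ∃ P : Submodule S (Fin r → S), P = W.comap F := ⟨_, rfl⟩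
  have hPm : ∀ v, v ∈ P ↔ F v ∈ W := fun v => by rw [hP, Submodule.mem_comap]
  let X : Submodule S P :=
    Submodule.comap P.subtype (LinearMap.range (x • LinearMap.id : (Fin r → S) →ₗ[S] (Fin r → S)))
  have hX : ∀ v : P, v ∈ X ↔ ∃ w : Fin r → S, (v : Fin r → S) = x • w := by
    intro v
    constructor
    · rintro ⟨w, hw⟩
      exact ⟨w, hw.symm⟩
    · rintro ⟨w, hw⟩
      exact ⟨w, hw.symm⟩
  have h1 := gens_count F hF G hG z W hW x hxW y hy f hfm hf hx P hP X hX
  have h2 := core_len hr F hF hmem hfaith hend hlen W x hxm hxW P hPm X hX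
  have h3 : ((r + q : ℕ) : ℕ∞) ≤ ((m + p : ℕ) : ℕ∞) := by
    rw [Nat.cast_add r q]
    exact (add_le_add h2 le_rfl).trans h1
  exact_mod_cast h3

end Pool.Agent.MP_e3346b_h37
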