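import Pool.Agent.Lib.MP_e3346b_ag_h37.Trace

/-!
# MP_e3346b_ag: endomorphisms of the maximal ideal (helper37)

Let `S` be an Artinian local ring with canonical module `E`, minimally generated by `r ≥ 2`
elements with `m` relations, let `x` be in the maximal ideal and let `L` be an ideal all of whose
elements are of the form `h x` with `h : m → S` linear. Then `r + length (L / x S) ≤ m`.
-/

set_option autoImplicit false

universe u

namespace Pool.Agent.MP_e3346b_h37

open Pool.Agent.MP_e3346b IsLocalRing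

variable {S : Type u} [CommRing S] {E : Type u} [AddCommGroup E] [Module S E]
  {r m : ℕ}

/-- `length (S / I) ≤ length (0 :_E I)` -/
lemma len_le_ann (hlen : ∀ (X : Type u) [AddCommGroup X] [Module S X], Module.Finite S X →
      Module.length S (X →ₗ[S] E) = Module.length S X) (I : Ideal S) (U : Submodule S E)
    (hU : ∀ e, e ∈ U ↔ ∀ a ∈ I, a • e = 0) :
    Module.length S (S ⧸ I) ≤ Module.length S U := by
  rw [← hlen (S ⧸ I) inferInstance]
  let Φ : ((S ⧸ I) →ₗ[S] E) →ₗ[S] U :=
    { toFun := fun φ => ⟨φ (Submodule.Quotient.mk 1), by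
        rw [hU]
        intro a ha
        rw [← map_smul, ← Submodule.Quotient.mk_smul, smul_eq_mul, mul_one,
          (Submodule.Quotient.mk_eq_zero I).mpr ha, map_zero]⟩
      map_add' := fun φ ψ => rfl
      map_smul' := fun c φ => rfl }
  refine Module.length_le_of_injective Φ ?_
  intro φ ψ h
  have h1 : φ (Submodule.Quotient.mk 1) = ψ (Submodule.Quotient.mk 1) := congrArg Subtype.val h
  refine LinearMap.ext fun t => ?_
  obtain ⟨t, rfl⟩ := Submodule.mkQ_surjective I t
  have h2 : I.mkQ t = t • (Submodule.Quotient.mk 1 : S ⧸ I) := by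
    rw [← Submodule.Quotient.mk_smul, smul_eq_mul, mul_one]
    rfl
  rw [h2, map_smul, map_smul, h1]

/-- `length (0 :_E I) ≤ length (S / I)` -/
lemma ann_le_len (hlen : ∀ (X : Type u) [AddCommGroup X] [Module S X], Module.Finite S X →
      Module.length S (X →ₗ[S] E) = Module.length S X) (I : Ideal S) (U : Submodule S E)
    (hU : ∀ e, e ∈ U ↔ ∀ a ∈ I, a • e = 0) :
    Module.length S U ≤ Module.length S (S ⧸ I) := by
  rw [← hlen (S ⧸ I) inferInstance]
  let Φ : U →ₗ[S] ((S ⧸ I) →ₗ[S] E) :=
    { toFun := fun e => Submodule.liftQ I (LinearMap.toSpanSingleton S E (e : E)) (by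
        intro a ha
        rw [LinearMap.mem_ker, LinearMap.toSpanSingleton_apply]
        exact (hU e).mp e.2 a ha)
      map_add' := fun e e' => by
        refine LinearMap.ext fun t => ?_
        obtain ⟨t, rfl⟩ := Submodule.mkQ_surjective I t
        change t • ((e : E) + (e' : E)) = t • (e : E) + t • (e' : E)
        rw [smul_add]
      map_smul' := fun c e => by
        refine LinearMap.ext fun t => ?_
        obtain ⟨t, rfl⟩ := Submodule.mkQ_surjective I t
        change t • (c • (e : E)) = c • (t • (e : E))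
        rw [smul_comm] }
  refine Module.length_le_of_injective Φ ?_
  intro e e' h
  have h1 := congrArg (fun φ : (S ⧸ I) →ₗ[S] E => φ (Submodule.Quotient.mk 1)) h
  apply Subtype.ext
  change (1 : S) • (e : E) = (1 : S) • (e' : E) at h1
  rwa [one_smul, one_smul] at h1

variable [IsLocalRing S]

/-- Values of homomorphisms on the maximal ideal. -/
theorem end_ineq [IsArtinianRing S] (hr : 2 ≤ r)
    (F : (Fin r → S) →ₗ[S] E) (hF : Function.Surjective F)
    (hmem : ∀ v ∈ LinearMap.ker F, ∀ i, v i ∈ maximalIdeal S)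
    (G : (Fin m → S) →ₗ[S] (Fin r → S)) (hG : LinearMap.range G = LinearMap.ker F)
    (hfaith : ∀ c : S, (∀ e : E, c • e = 0) → c = 0)
    (hend : ∀ φ : E →ₗ[S] E, ∃ c : S, ∀ e, φ e = c • e)
    (hlen : ∀ (X : Type u) [AddCommGroup X] [Module S X], Module.Finite S X →
      Module.length S (X →ₗ[S] E) = Module.length S X)
    (x : S) (hxm : x ∈ maximalIdeal S) (L : Ideal S) (hxL : x ∈ L)
    (hL : ∀ a ∈ L, ∃ h : (maximalIdeal S) →ₗ[S] S, h ⟨x, hxm⟩ = a) :
    r + Module.length S (S ⧸ Ideal.span {x}) ≤ m + Module.length S (S ⧸ L) := by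
  classical
  have hfin : Module.Finite S E := Module.Finite.of_surjective F hF
  obtain ⟨W, hW⟩ : ∃ W : Submodule S E,
      W = LinearMap.range (x • LinearMap.id : E →ₗ[S] E) := ⟨_, rfl⟩
  have hWx : ∀ e, e ∈ W ↔ ∃ e', x • e' = e := fun e => by
    rw [hW]
    rfl
  have hxW : ∀ e : E, x • e ∈ W := fun e => (hWx _).mpr ⟨e, rfl⟩
  obtain ⟨P, hP⟩ : ∃ P : Submodule S (Fin r → S), P = W.comap F := ⟨_, rfl⟩
  have hPm : ∀ v, v ∈ P ↔ F v ∈ W := fun v => by rw [hP, Submodule.mem_comap]
  let X : Submodule S P :=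
    Submodule.comap P.subtype (LinearMap.range (x • LinearMap.id : (Fin r → S) →ₗ[S] (Fin r → S)))
  have hX : ∀ v : P, v ∈ X ↔ ∃ w : Fin r → S, (v : Fin r → S) = x • w := by
    intro v
    constructor
    · rintro ⟨w, hw⟩
      exact ⟨w, hw.symm⟩
    · rintro ⟨w, hw⟩
      exact ⟨w, hw.symm⟩
  have h2 := core_len hr F hF hmem hfaith hend hlen W x hxm hxW P hPm X hX
  -- the kernel of `F`
  obtain ⟨K, hK⟩ : ∃ K : Submodule S (Fin r → S), K = LinearMap.ker F := ⟨_, rfl⟩
  have hKm : ∀ v, v ∈ K ↔ F v = 0 := fun v => by rw [hK, LinearMap.mem_ker]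
  have hKP : K ≤ P := fun v hv => by
    rw [hPm, (hKm v).mp hv]
    exact W.zero_mem
  -- `K / m K` has length at most `m`
  have hlenK : Module.length S (K ⧸ (maximalIdeal S • ⊤ : Submodule S K)) ≤ (m : ℕ∞) := by
    let g : (Fin m → S) →ₗ[S] K := G.codRestrict K fun v => by
      rw [hK, ← hG]
      exact ⟨v, rfl⟩
    have hg : Function.Surjective g := by
      rintro ⟨v, hv⟩
      rw [hK, ← hG] at hv
      obtain ⟨a, rfl⟩ := hv
      exact ⟨a, rfl⟩
    have h1 := length_le_of_gen (S := S)
      ((Submodule.mkQ (maximalIdeal S • ⊤ : Submodule S K)).comp g)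
      ((Submodule.mkQ_surjective _).comp hg) (maximalIdeal S) (by
        intro c hc v
        obtain ⟨v, rfl⟩ := Submodule.mkQ_surjective _ v
        rw [← map_smul, Submodule.mkQ_apply, Submodule.Quotient.mk_eq_zero]
        exact Submodule.smul_mem_smul hc trivial)
    have hone : Module.length S (S ⧸ maximalIdeal S) = 1 := by
      rw [Module.length_eq_one_iff]
      exact isSimpleModule_iff_isCoatom.mpr
        (Ideal.isMaximal_def.mp (IsLocalRing.maximalIdeal.isMaximal S))
    rw [hone, mul_one, Nat.card_fin] at h1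
    exact h1
  -- the surjection `K / m K → N / m N`
  let κ : K →ₗ[S] (P ⧸ X) := X.mkQ.comp (Submodule.inclusion hKP)
  have hκ : Function.Surjective κ := by
    intro n
    obtain ⟨⟨v, hv⟩, rfl⟩ := Submodule.mkQ_surjective _ n
    obtain ⟨e, he⟩ := (hWx _).mp ((hPm v).mp hv)
    obtain ⟨w, rfl⟩ := hF e
    have h3 : v - x • w ∈ K := by
      rw [hKm, map_sub, map_smul, he, sub_self]
    refine ⟨⟨v - x • w, h3⟩, ?_⟩
    change X.mkQ _ = X.mkQ _
    rw [← sub_eq_zero, ← map_sub, Submodule.mkQ_apply, Submodule.Quotient.mk_eq_zero, hX]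
    refine ⟨-w, ?_⟩
    change v - x • w - v = x • (-w)
    rw [smul_neg]
    abel
  let σ : (K ⧸ (maximalIdeal S • ⊤ : Submodule S K)) →ₗ[S]
      ((P ⧸ X) ⧸ (maximalIdeal S • ⊤ : Submodule S (P ⧸ X))) :=
    Submodule.mapQ _ _ κ (Submodule.smul_top_le_comap_smul_top _ _)
  have hσ : Function.Surjective σ := by
    intro w
    obtain ⟨w, rfl⟩ := Submodule.mkQ_surjective _ w
    obtain ⟨v, rfl⟩ := hκ w
    exact ⟨Submodule.Quotient.mk v, rfl⟩
  -- the submodules `0 : x` and `0 : L` of `E`
  let U : Submodule S E := LinearMap.ker (x • LinearMap.id : E →ₗ[S] E)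
  have hU : ∀ e, e ∈ U ↔ ∀ a ∈ Ideal.span {x}, a • e = 0 := by
    intro e
    constructor
    · intro he a ha
      obtain ⟨b, rfl⟩ := Ideal.mem_span_singleton'.mp ha
      have h3 : x • e = 0 := he
      rw [mul_smul, h3, smul_zero]
    · intro h
      exact h x (Ideal.mem_span_singleton_self x)
  let V : Submodule S E :=
    { carrier := {e | ∀ a ∈ L, a • e = 0}
      add_mem' := fun {e e'} he he' a ha => by rw [smul_add, he a ha, he' a ha, add_zero]
      zero_mem' := fun a _ => smul_zero a
      smul_mem' := fun c e he a ha => by rw [smul_comm, he a ha, smul_zero] }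
  have hV : ∀ e, e ∈ V ↔ ∀ a ∈ L, a • e = 0 := fun e => Iff.rfl
  have hVU : V ≤ U := fun e he => (hV e).mp he x hxL
  have hlenU := len_le_ann hlen (Ideal.span {x}) U hU
  have hlenV := ann_le_len hlen L V hV
  -- the elements `w` with `x w ∈ K`
  obtain ⟨Q, hQ⟩ : ∃ Q : Submodule S (Fin r → S), Q = U.comap F := ⟨_, rfl⟩
  have hQm : ∀ w, w ∈ Q ↔ x • F w = 0 := fun w => by
    rw [hQ, Submodule.mem_comap]
    exact Iff.rfl
  have hQK : ∀ w : Q, x • (w : Fin r → S) ∈ K := fun w => by
    rw [hKm, map_smul]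
    exact (hQm _).mp w.2
  let α : Q →ₗ[S] (K ⧸ (maximalIdeal S • ⊤ : Submodule S K)) :=
    (Submodule.mkQ _).comp ((x • Q.subtype : Q →ₗ[S] (Fin r → S)).codRestrict K hQK)
  let V' : Submodule S U := V.comap U.subtype
  let γ : Q →ₗ[S] (U ⧸ V') :=
    V'.mkQ.comp ((F.comp Q.subtype).codRestrict U fun w => (hQm _).mp w.2)
  have hγ : Function.Surjective γ := by
    intro t
    obtain ⟨⟨e, he⟩, rfl⟩ := Submodule.mkQ_surjective _ t
    obtain ⟨w, rfl⟩ := hF e
    exact ⟨⟨w, (hQm _).mpr he⟩, rfl⟩
  -- a homomorphism on `m` kills the relations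
  have hθ : ∀ (h : (maximalIdeal S) →ₗ[S] S) (v : K),
      v ∈ (maximalIdeal S • ⊤ : Submodule S K) →
      ∑ i, h ⟨(v : Fin r → S) i, hmem _ (hK ▸ v.2) i⟩ • F (Pi.single i 1) = 0 := by
    intro h v hv
    let θ : K →ₗ[S] E :=
      { toFun := fun v => ∑ i, h ⟨(v : Fin r → S) i, hmem _ (hK ▸ v.2) i⟩ • F (Pi.single i 1)
        map_add' := fun v v' => by
          rw [← Finset.sum_add_distrib]
          refine Finset.sum_congr rfl fun i _ => ?_
          rw [← add_smul, ← map_add]
          rfl
        map_smul' := fun c v => by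
          rw [RingHom.id_apply, Finset.smul_sum]
          refine Finset.sum_congr rfl fun i _ => ?_
          have h3 : h ⟨(c • (v : Fin r → S)) i, (maximalIdeal S).mul_mem_left _
              (hmem _ (hK ▸ v.2) i)⟩ = c * h ⟨(v : Fin r → S) i, hmem _ (hK ▸ v.2) i⟩ := by
            rw [← smul_eq_mul (a := c), ← map_smul]
            rfl
          rw [smul_smul, ← h3]
          rfl }
    have hle : (maximalIdeal S • ⊤ : Submodule S K) ≤ LinearMap.ker θ := by
      refine Submodule.smul_le.mpr fun t ht v _ => ?_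
      rw [LinearMap.mem_ker]
      change ∑ i, h ⟨t * (v : Fin r → S) i, _⟩ • F (Pi.single i 1) = 0
      have h3 : ∀ i, h ⟨t * (v : Fin r → S) i, (maximalIdeal S).mul_mem_right _ ht⟩ =
          h ⟨t, ht⟩ * (v : Fin r → S) i := by
        intro i
        have h4 : (⟨t * (v : Fin r → S) i, (maximalIdeal S).mul_mem_right _ ht⟩ :
            maximalIdeal S) = (v : Fin r → S) i • ⟨t, ht⟩ := by
          apply Subtype.ext
          change t * (v : Fin r → S) i = (v : Fin r → S) i * t
          ring
        rw [h4, map_smul, smul_eq_mul, mul_comm]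
      have h5 : F (v : Fin r → S) = ∑ i, (v : Fin r → S) i • F (Pi.single i 1) := by
        conv_lhs => rw [show (v : Fin r → S) = ∑ j, (v : Fin r → S) j •
          (Pi.single j 1 : Fin r → S) by ext j; simp [Finset.sum_apply, Pi.single_apply]]
        rw [map_sum]
        exact Finset.sum_congr rfl fun j _ => by rw [map_smul]
      have h6 : ∑ i, (h ⟨t, ht⟩ * (v : Fin r → S) i) • F (Pi.single i 1) = 0 := by
        have h7 : F (v : Fin r → S) = 0 := (hKm _).mp v.2
        rw [h5] at h7
        calc ∑ i, (h ⟨t, ht⟩ * (v : Fin r → S) i) • F (Pi.single i 1)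
            = h ⟨t, ht⟩ • ∑ i, (v : Fin r → S) i • F (Pi.single i 1) := by
              rw [Finset.smul_sum]
              exact Finset.sum_congr rfl fun i _ => by rw [smul_smul]
          _ = 0 := by rw [h7, smul_zero]
      rw [← h6]
      exact Finset.sum_congr rfl fun i _ => by rw [h3 i]
    exact hle hv
  have hαγ : LinearMap.ker α ≤ LinearMap.ker γ := by
    intro w hw
    have h3 : (⟨x • (w : Fin r → S), hQK w⟩ : K) ∈ (maximalIdeal S • ⊤ : Submodule S K) :=
      (Submodule.Quotient.mk_eq_zero _).mp (LinearMap.mem_ker.mp hw)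
    rw [LinearMap.mem_ker]
    change (Submodule.Quotient.mk _ : U ⧸ V') = 0
    rw [Submodule.Quotient.mk_eq_zero]
    change ∀ a ∈ L, a • F (w : Fin r → S) = 0
    intro a ha
    obtain ⟨h, hh⟩ := hL a ha
    have h4 := hθ h _ h3
    have h5 : ∀ i, h ⟨(x • (w : Fin r → S)) i, hmem _ (hK ▸ hQK w) i⟩ =
        a * (w : Fin r → S) i := by
      intro i
      have h6 : (⟨(x • (w : Fin r → S)) i, hmem _ (hK ▸ hQK w) i⟩ : maximalIdeal S) =
          (w : Fin r → S) i • ⟨x, hxm⟩ := by
        apply Subtype.ext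
        change x * (w : Fin r → S) i = (w : Fin r → S) i * x
        ring
      rw [h6, map_smul, hh, smul_eq_mul, mul_comm]
    have h7 : F (w : Fin r → S) = ∑ i, (w : Fin r → S) i • F (Pi.single i 1) := by
      conv_lhs => rw [show (w : Fin r → S) = ∑ j, (w : Fin r → S) j •
        (Pi.single j 1 : Fin r → S) by ext j; simp [Finset.sum_apply, Pi.single_apply]]
      rw [map_sum]
      exact Finset.sum_congr rfl fun j _ => by rw [map_smul]
    rw [h7, Finset.smul_sum]
    refine Eq.trans ?_ h4
    refine Finset.sum_congr rfl fun i _ => ?_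
    rw [smul_smul]
    congr 1
    exact (h5 i).symm
  have hlenα : Module.length S (U ⧸ V') ≤ Module.length S (LinearMap.range α) := by
    rw [← α.quotKerEquivRange.length_eq]
    refine Module.length_le_of_surjective (Submodule.liftQ _ γ hαγ) ?_
    intro w
    obtain ⟨v, rfl⟩ := hγ w
    exact ⟨Submodule.Quotient.mk v, by simp⟩
  have hασ : LinearMap.range α ≤ LinearMap.ker σ := by
    rintro _ ⟨w, rfl⟩
    rw [LinearMap.mem_ker]
    change (Submodule.Quotient.mk (Submodule.Quotient.mk
      (⟨x • (w : Fin r → S), hKP (hQK w)⟩ : P) : P ⧸ X) :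
      (P ⧸ X) ⧸ (maximalIdeal S • ⊤ : Submodule S (P ⧸ X))) = 0
    rw [(Submodule.Quotient.mk_eq_zero X).mpr ((hX _).mpr ⟨_, rfl⟩)]
    rfl
  have h5 := Module.length_eq_add_of_exact (LinearMap.ker σ).subtype σ
    (Submodule.injective_subtype _) hσ (LinearMap.exact_subtype_ker_map σ)
  have h6 : Module.length S (LinearMap.range α) ≤ Module.length S (LinearMap.ker σ) :=
    Module.length_le_of_injective (Submodule.inclusion hασ) (Submodule.inclusion_injective hασ)
  have h7 : Module.length S U = Module.length S V' + Module.length S (U ⧸ V') := len_add V'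
  have h8 : Module.length S V' ≤ Module.length S V :=
    Module.length_le_of_injective ((U.subtype.comp V'.subtype).codRestrict V fun v => v.2) (by
      intro a b h
      have := congrArg Subtype.val h
      exact Subtype.ext (Subtype.ext this))
  calc r + Module.length S (S ⧸ Ideal.span {x})
      ≤ Module.length S ((P ⧸ X) ⧸ (maximalIdeal S • ⊤ : Submodule S (P ⧸ X))) +
        (Module.length S V' + Module.length S (U ⧸ V')) :=
        add_le_add h2 (hlenU.trans h7.le)
    _ ≤ Module.length S ((P ⧸ X) ⧸ (maximalIdeal S • ⊤ : Submodule S (P ⧸ X))) +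
        (Module.length S (S ⧸ L) + Module.length S (LinearMap.ker σ)) :=
        add_le_add le_rfl (add_le_add (h8.trans hlenV) (hlenα.trans h6))
    _ = Module.length S (K ⧸ (maximalIdeal S • ⊤ : Submodule S K)) +
        Module.length S (S ⧸ L) := by rw [h5]; ring
    _ ≤ m + Module.length S (S ⧸ L) := add_le_add hlenK le_rfl

end Pool.Agent.MP_e3346b_h37
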