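import Pool.Agent.Lib.MP_e3346b_ag_h58.Dual

/-!
# MP_e3346b_ag: lengths and numbers of generators (helper37)
-/

set_option autoImplicit false

universe u v w

namespace Pool.Agent.MP_e3346b_h37

open Pool.Agent.MP_e3346b IsLocalRing

section Gen

variable {S : Type u} [CommRing S]

lemma len_add {M : Type v} [AddCommGroup M] [Module S M] (N : Submodule S M) :
    Module.length S M = Module.length S N + Module.length S (M ⧸ N) :=
  Module.length_eq_add_of_exact N.subtype N.mkQ (Submodule.injective_subtype _)
    (Submodule.mkQ_surjective _) (LinearMap.exact_subtype_mkQ N)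

/-- A module killed by `b` and generated by `card ι` elements. -/
theorem length_le_of_gen {ι : Type w} [Finite ι] {N : Type v} [AddCommGroup N] [Module S N]
    (Φ : (ι → S) →ₗ[S] N) (hΦ : Function.Surjective Φ) (b : Ideal S)
    (hb : ∀ c ∈ b, ∀ y : N, c • y = 0) :
    Module.length S N ≤ Nat.card ι * Module.length S (S ⧸ b) := by
  classical
  have : Fintype ι := Fintype.ofFinite ι
  have hker : Submodule.pi Set.univ (fun _ : ι => b) ≤ LinearMap.ker Φ := by
    intro v hv
    rw [LinearMap.mem_ker]
    have hv2 : v = ∑ i, v i • (Pi.single i 1 : ι → S) := by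
      ext j
      simp [Finset.sum_apply, Pi.single_apply]
    rw [hv2, map_sum]
    refine Finset.sum_eq_zero fun i _ => ?_
    rw [map_smul]
    exact hb _ (hv i (Set.mem_univ i)) _
  have e2 : Module.length S ((ι → S) ⧸ Submodule.pi Set.univ (fun _ : ι => b)) =
      Module.length S (ι → S ⧸ b) :=
    (Submodule.quotientPi (fun _ : ι => b)).length_eq
  have e3 : Module.length S (ι → S ⧸ b) = Nat.card ι * Module.length S (S ⧸ b) := by
    rw [Module.length_pi]
    simp
  rw [← e3, ← e2]
  refine Module.length_le_of_surjective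
    ((Submodule.liftQ _ Φ hker)) ?_
  intro y
  obtain ⟨v, rfl⟩ := hΦ y
  exact ⟨Submodule.Quotient.mk v, by simp⟩

variable [IsLocalRing S]

/-- The number of generators of `N` is the length of `N / m N`. -/
theorem exists_gen (N : Type v) [AddCommGroup N] [Module S N] [Module.Finite S N] :
    ∃ (n : ℕ) (Φ : (Fin n → S) →ₗ[S] N), Function.Surjective Φ ∧
      Module.length S (N ⧸ (maximalIdeal S • ⊤ : Submodule S N)) = n := by
  obtain ⟨s, hs, hspan⟩ :=
    Submodule.FG.exists_span_finset_card_eq_spanFinrank (p := (⊤ : Submodule S N))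
      Module.Finite.fg_top
  have hrank := IsLocalRing.spanFinrank_eq_finrank_quotient (⊤ : Submodule S N)
    Module.Finite.fg_top
  let e := s.equivFin
  refine ⟨s.card, Fintype.linearCombination S (fun i => ((e.symm i : s) : N)), ?_, ?_⟩
  · rw [← LinearMap.range_eq_top, Fintype.range_linearCombination, ← hspan]
    congr 1
    ext x
    constructor
    · rintro ⟨i, rfl⟩
      exact (e.symm i).2
    · intro hx
      exact ⟨e ⟨x, hx⟩, by simp⟩
  · rw [hs, hrank]
    let _ : Field (S ⧸ maximalIdeal S) := Ideal.Quotient.field _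
    have h1 : Module.length S (N ⧸ (maximalIdeal S • ⊤ : Submodule S N)) =
        Module.length (S ⧸ maximalIdeal S) (N ⧸ (maximalIdeal S • ⊤ : Submodule S N)) :=
      Module.length_eq_of_surjective (S := S) (R := S ⧸ maximalIdeal S)
        (M := N ⧸ (maximalIdeal S • ⊤ : Submodule S N)) Ideal.Quotient.mk_surjective
    rw [h1]
    have hfin : Module.Finite (S ⧸ maximalIdeal S)
        (N ⧸ (maximalIdeal S • ⊤ : Submodule S N)) :=
      Module.Finite.of_restrictScalars_finite S _ _
    rw [Module.length_eq_finrank]
    have hmap : Submodule.map (Submodule.topEquiv (R := S) (M := N)).toLinearMap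
        (maximalIdeal S • ⊤ : Submodule S (⊤ : Submodule S N)) =
        (maximalIdeal S • ⊤ : Submodule S N) := by
      rw [Submodule.map_smul'', Submodule.map_top, LinearEquiv.range]
    let q : ((⊤ : Submodule S N) ⧸ (maximalIdeal S • ⊤ : Submodule S (⊤ : Submodule S N))) ≃ₗ[S]
        (N ⧸ (maximalIdeal S • ⊤ : Submodule S N)) :=
      Submodule.Quotient.equiv _ _ (Submodule.topEquiv (R := S) (M := N)) hmap
    let q' := q.extendScalarsOfSurjective
      (Ideal.Quotient.mk_surjective (I := maximalIdeal S))
    exact congrArg _ q'.finrank_eq.symm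

/-- The length of a module killed by `b`. -/
theorem length_le_mul (N : Type v) [AddCommGroup N] [Module S N] [Module.Finite S N]
    (b : Ideal S) (hb : ∀ c ∈ b, ∀ y : N, c • y = 0) :
    Module.length S N ≤
      Module.length S (N ⧸ (maximalIdeal S • ⊤ : Submodule S N)) * Module.length S (S ⧸ b) := by
  obtain ⟨n, Φ, hΦ, hn⟩ := exists_gen (S := S) N
  have h := length_le_of_gen Φ hΦ b hb
  rw [Nat.card_fin] at h
  rw [hn]
  exact h

end Gen

end Pool.Agent.MP_e3346b_h37
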