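import Pool.Agent.Lib.MP_e3346b_ag_h37.Gen

/-!
# MP_e3346b_ag: quotients of the canonical module killed by an element of low order (helper37)

Let `S` be an Artinian local ring and `E` its canonical module, minimally generated by `r ≥ 2`
elements with `m` relations. If `W` is a submodule of `E` generated by `p` elements, and `E / W`
is killed by `x` and minimally generated by `q` elements, and `x` is not in `m f` where `f`
contains all the coefficients of the relations of `E / W`, then `r + q ≤ m + p`.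
-/

set_option autoImplicit false

universe u

namespace Pool.Agent.MP_e3346b_h37

open Pool.Agent.MP_e3346b IsLocalRing

variable {S : Type u} [CommRing S] [IsLocalRing S] {E : Type u} [AddCommGroup E] [Module S E]
  {r m p q : ℕ}

/-- The preimage `P` of `W` in `S ^ r` satisfies `μ (P / x S ^ r) + q ≤ m + p`. -/
theorem gens_count (F : (Fin r → S) →ₗ[S] E) (hF : Function.Surjective F)
    (G : (Fin m → S) →ₗ[S] (Fin r → S)) (hG : LinearMap.range G = LinearMap.ker F)
    (z : Fin p → E) (W : Submodule S E) (hW : Submodule.span S (Set.range z) = W)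
    (x : S) (hxW : ∀ e : E, x • e ∈ W)
    (y : Fin q → E) (hy : Submodule.span S (Set.range y) ⊔ W = ⊤)
    (f : Ideal S) (hfm : f ≤ maximalIdeal S)
    (hf : ∀ c : Fin q → S, ∑ i, c i • y i ∈ W → ∀ i, c i ∈ f) (hx : x ∉ maximalIdeal S * f)
    (P : Submodule S (Fin r → S)) (hP : P = W.comap F) (X : Submodule S P)
    (hX : ∀ v : P, v ∈ X ↔ ∃ w : Fin r → S, (v : Fin r → S) = x • w) :
    Module.length S ((P ⧸ X) ⧸ (maximalIdeal S • ⊤ : Submodule S (P ⧸ X))) + q ≤
      ((m + p : ℕ) : ℕ∞) := by
  classical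
  have hPm : ∀ v, v ∈ P ↔ F v ∈ W := fun v => by rw [hP, Submodule.mem_comap]
  -- generators of `P`
  have hzW : ∀ j, z j ∈ W := fun j => hW ▸ Submodule.subset_span ⟨j, rfl⟩
  choose zt hzt using fun j => hF (z j)
  have hztP : ∀ j, zt j ∈ P := fun j => by
    rw [hPm, hzt]
    exact hzW j
  have hGP : ∀ v, G v ∈ P := fun v => by
    have h1 : G v ∈ LinearMap.ker F := by
      rw [← hG]
      exact ⟨v, rfl⟩
    rw [hPm, LinearMap.mem_ker.mp h1]
    exact W.zero_mem
  let gen : Fin m ⊕ Fin p → P := Sum.elim (fun j => ⟨G (Pi.single j 1), hGP _⟩)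
    (fun j => ⟨zt j, hztP j⟩)
  let Φ : (Fin m ⊕ Fin p → S) →ₗ[S] P := Fintype.linearCombination S gen
  have hΦ : Function.Surjective Φ := by
    rw [← LinearMap.range_eq_top, Fintype.range_linearCombination, eq_top_iff]
    rintro ⟨v, hv⟩ -
    have hv' : F v ∈ Submodule.span S (Set.range z) := by
      rw [hW]
      exact (hPm v).mp hv
    rw [Submodule.mem_span_range_iff_exists_fun] at hv'
    obtain ⟨c, hc⟩ := hv'
    have h1 : v - ∑ j, c j • zt j ∈ LinearMap.ker F := by
      rw [LinearMap.mem_ker, map_sub, map_sum, ← hc, sub_eq_zero]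
      refine Finset.sum_congr rfl fun j _ => ?_
      rw [map_smul, hzt]
    rw [← hG] at h1
    obtain ⟨a, ha⟩ := h1
    have h2 : (⟨v, hv⟩ : P) = ∑ j, a j • gen (Sum.inl j) + ∑ j, c j • gen (Sum.inr j) := by
      apply Subtype.ext
      rw [Submodule.coe_add, Submodule.coe_sum, Submodule.coe_sum]
      have h3 : G a = ∑ j, a j • G (Pi.single j 1) := by
        conv_lhs => rw [show a = ∑ j, a j • (Pi.single j 1 : Fin m → S) by
          ext j; simp [Finset.sum_apply, Pi.single_apply]]
        rw [map_sum]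
        exact Finset.sum_congr rfl fun j _ => by rw [map_smul]
      have h4 : v = G a + ∑ j, c j • zt j := by
        rw [ha]
        abel
      change v = _
      conv_lhs => rw [h4, h3]
      rfl
    rw [h2]
    refine add_mem (sum_mem fun j _ => ?_) (sum_mem fun j _ => ?_)
    · exact Submodule.smul_mem _ _ (Submodule.subset_span ⟨Sum.inl j, rfl⟩)
    · exact Submodule.smul_mem _ _ (Submodule.subset_span ⟨Sum.inr j, rfl⟩)
  have hlenP : Module.length S (P ⧸ (maximalIdeal S • ⊤ : Submodule S P)) ≤ ((m + p : ℕ) : ℕ∞) := by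
    have h1 := length_le_of_gen (S := S)
      ((Submodule.mkQ (maximalIdeal S • ⊤ : Submodule S P)).comp Φ)
      ((Submodule.mkQ_surjective _).comp hΦ) (maximalIdeal S) (by
        intro c hc v
        obtain ⟨v, rfl⟩ := Submodule.mkQ_surjective _ v
        rw [← map_smul, Submodule.mkQ_apply, Submodule.Quotient.mk_eq_zero]
        exact Submodule.smul_mem_smul hc trivial)
    rw [Nat.card_sum, Nat.card_fin, Nat.card_fin] at h1
    have h2 : Module.length S (S ⧸ maximalIdeal S) = 1 := by
      rw [Module.length_eq_one_iff]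
      exact isSimpleModule_iff_isCoatom.mpr
        (Ideal.isMaximal_def.mp (IsLocalRing.maximalIdeal.isMaximal S))
    rw [h2, mul_one] at h1
    exact h1
  -- the lift `τ` of `S ^ r → E / W` to `S ^ q`
  have hlift : ∀ e : E, ∃ c : Fin q → S, e - ∑ j, c j • y j ∈ W := by
    intro e
    have he : e ∈ Submodule.span S (Set.range y) ⊔ W := by
      rw [hy]
      trivial
    rw [Submodule.mem_sup] at he
    obtain ⟨a, ha, b, hb, rfl⟩ := he
    rw [Submodule.mem_span_range_iff_exists_fun] at ha
    obtain ⟨c, hc⟩ := ha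
    refine ⟨c, ?_⟩
    rw [hc, add_sub_cancel_left]
    exact hb
  choose c hc using fun i : Fin r => hlift (F (Pi.single i 1))
  let τ : (Fin r → S) →ₗ[S] (Fin q → S) := Fintype.linearCombination S c
  have hτ : ∀ v, F v - ∑ j, τ v j • y j ∈ W := by
    intro v
    have h1 : F v - ∑ j, τ v j • y j = ∑ i, v i • (F (Pi.single i 1) - ∑ j, c i j • y j) := by
      have h2 : F v = ∑ i, v i • F (Pi.single i 1) := by
        conv_lhs => rw [show v = ∑ j, v j • (Pi.single j 1 : Fin r → S) by
          ext j; simp [Finset.sum_apply, Pi.single_apply]]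
        rw [map_sum]
        exact Finset.sum_congr rfl fun j _ => by rw [map_smul]
      have h3 : ∑ j, τ v j • y j = ∑ i, v i • ∑ j, c i j • y j := by
        simp only [τ, Fintype.linearCombination_apply, Finset.sum_apply, Pi.smul_apply,
          smul_eq_mul, Finset.sum_smul, Finset.smul_sum, smul_smul]
        exact Finset.sum_comm
      rw [h2, h3, ← Finset.sum_sub_distrib]
      exact Finset.sum_congr rfl fun i _ => by rw [smul_sub]
    rw [h1]
    exact sum_mem fun i _ => W.smul_mem _ (hc i)
  have hτP : ∀ v ∈ P, ∀ j, τ v j ∈ f := by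
    intro v hv
    refine hf _ ?_
    have h1 := W.sub_mem ((hPm v).mp hv) (hτ v)
    rwa [sub_sub_cancel] at h1
  -- multiplication by `x`
  have hxP : ∀ v : Fin r → S, x • v ∈ P := fun v => by
    rw [hPm, map_smul]
    exact hxW _
  let β : (Fin r → S) →ₗ[S] (P ⧸ (maximalIdeal S • ⊤ : Submodule S P)) :=
    (Submodule.mkQ _).comp ((x • LinearMap.id : (Fin r → S) →ₗ[S] (Fin r → S)).codRestrict P hxP)
  let ν : (Fin r → S) →ₗ[S] (Fin q → S ⧸ maximalIdeal S) :=
    LinearMap.pi fun i => (Submodule.mkQ (maximalIdeal S)).comp ((LinearMap.proj i).comp τ)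
  have hν : Function.Surjective ν := by
    intro w
    choose wt hwt using fun i => Submodule.mkQ_surjective (maximalIdeal S) (w i)
    obtain ⟨v, hv⟩ := hF (∑ j, wt j • y j)
    refine ⟨v, ?_⟩
    ext i
    rw [← hwt i]
    change Submodule.mkQ (maximalIdeal S) (τ v i) = Submodule.mkQ (maximalIdeal S) (wt i)
    rw [← sub_eq_zero, ← map_sub, Submodule.mkQ_apply, Submodule.Quotient.mk_eq_zero]
    have h1 := hf (wt - τ v) (by
      have h2 := hτ v
      rw [hv, ← Finset.sum_sub_distrib] at h2
      simpa [sub_smul] using h2) i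
    have h2 := (maximalIdeal S).neg_mem (hfm h1)
    rwa [Pi.sub_apply, neg_sub] at h2
  have hmf : ∀ v : P, v ∈ (maximalIdeal S • ⊤ : Submodule S P) →
      ∀ j, τ (v : Fin r → S) j ∈ maximalIdeal S * f := by
    intro v hv j
    have h1 : (maximalIdeal S • ⊤ : Submodule S P) ≤
        Submodule.comap ((LinearMap.proj (R := S) (φ := fun _ : Fin q => S) j).comp
          (τ.comp P.subtype)) (maximalIdeal S * f : Submodule S S) := by
      refine Submodule.smul_le.mpr fun a ha b _ => ?_
      rw [Submodule.mem_comap, map_smul, smul_eq_mul]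
      exact Ideal.mul_mem_mul ha (hτP _ b.2 j)
    exact h1 hv
  have hβν : LinearMap.ker β ≤ LinearMap.ker ν := by
    intro v hv
    have h1 : (⟨x • v, hxP v⟩ : P) ∈ (maximalIdeal S • ⊤ : Submodule S P) :=
      (Submodule.Quotient.mk_eq_zero _).mp (LinearMap.mem_ker.mp hv)
    rw [LinearMap.mem_ker]
    ext j
    change (Submodule.Quotient.mk (τ v j) : S ⧸ maximalIdeal S) = 0
    rw [Submodule.Quotient.mk_eq_zero]
    by_contra hu
    have hu2 : IsUnit (τ v j) := by
      rwa [IsLocalRing.mem_maximalIdeal, mem_nonunits_iff, not_not] at hu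
    have h2 := hmf _ h1 j
    change τ (x • v) j ∈ _ at h2
    rw [map_smul, Pi.smul_apply, smul_eq_mul] at h2
    obtain ⟨s, hs⟩ := hu2.exists_right_inv
    have h3 := (maximalIdeal S * f).mul_mem_right s h2
    rw [mul_assoc, hs, mul_one] at h3
    exact hx h3
  have hlenβ : (q : ℕ∞) ≤ Module.length S (LinearMap.range β) := by
    have h1 : Module.length S (Fin q → S ⧸ maximalIdeal S) = q := by
      rw [Module.length_pi, Module.length_eq_one_iff.mpr (isSimpleModule_iff_isCoatom.mpr
        (Ideal.isMaximal_def.mp (IsLocalRing.maximalIdeal.isMaximal S)))]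
      simp
    rw [← h1, ← β.quotKerEquivRange.length_eq]
    refine Module.length_le_of_surjective (Submodule.liftQ _ ν hβν) ?_
    intro w
    obtain ⟨v, rfl⟩ := hν w
    exact ⟨Submodule.Quotient.mk v, by simp⟩
  -- compare
  let ρ : (P ⧸ (maximalIdeal S • ⊤ : Submodule S P)) →ₗ[S]
      ((P ⧸ X) ⧸ (maximalIdeal S • ⊤ : Submodule S (P ⧸ X))) :=
    Submodule.mapQ _ _ X.mkQ (Submodule.smul_top_le_comap_smul_top _ _)
  have hρ : Function.Surjective ρ := by
    intro w
    obtain ⟨w, rfl⟩ := Submodule.mkQ_surjective _ w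
    obtain ⟨w, rfl⟩ := Submodule.mkQ_surjective _ w
    exact ⟨Submodule.Quotient.mk w, rfl⟩
  have hβρ : LinearMap.range β ≤ LinearMap.ker ρ := by
    rintro _ ⟨v, rfl⟩
    rw [LinearMap.mem_ker]
    change (Submodule.Quotient.mk (Submodule.Quotient.mk (⟨x • v, hxP v⟩ : P) : P ⧸ X) :
      (P ⧸ X) ⧸ (maximalIdeal S • ⊤ : Submodule S (P ⧸ X))) = 0
    rw [(Submodule.Quotient.mk_eq_zero X).mpr ((hX _).mpr ⟨v, rfl⟩)]
    rfl
  have h5 := Module.length_eq_add_of_exact (LinearMap.ker ρ).subtype ρ
    (Submodule.injective_subtype _) hρ (LinearMap.exact_subtype_ker_map ρ)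
  have h6 : Module.length S (LinearMap.range β) ≤ Module.length S (LinearMap.ker ρ) :=
    Module.length_le_of_injective (Submodule.inclusion hβρ) (Submodule.inclusion_injective hβρ)
  calc _ ≤ Module.length S ((P ⧸ X) ⧸ (maximalIdeal S • ⊤ : Submodule S (P ⧸ X))) +
        Module.length S (LinearMap.ker ρ) := add_le_add le_rfl (hlenβ.trans h6)
    _ = Module.length S (P ⧸ (maximalIdeal S • ⊤ : Submodule S P)) := by rw [h5, add_comm]
    _ ≤ _ := hlenP

end Pool.Agent.MP_e3346b_h37
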