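import Pool.Agent.Lib.MP_e3346b_ag_h37.Core

/-!
# MP_e3346b_ag: reduction modulo a regular sequence, any number of relations (helper37)
-/

set_option autoImplicit false

universe u

namespace Pool.Agent.MP_e3346b_h37

open CategoryTheory CategoryTheory.Abelian RingTheory.Sequence Pool.Agent.MP_e3346b IsLocalRing

section Rect

variable {R : Type u} [CommRing R] (I : Ideal R) {ω : Type u} [AddCommGroup ω] [Module R ω]
  {n m : ℕ}

lemma mem_ker_baseF {f : (Fin n → R) →ₗ[R] ω} (hf : Function.Surjective f)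
    (v : Fin n → R ⧸ I) : v ∈ LinearMap.ker (baseF I f) ↔
      ∃ u : Fin n → R, f u = 0 ∧ (fun i => Ideal.Quotient.mk I (u i)) = v := by
  constructor
  · intro hv
    obtain ⟨v, rfl⟩ := exists_lift I v
    rw [LinearMap.mem_ker, baseF_mk, Submodule.Quotient.mk_eq_zero] at hv
    have htop : (I • ⊤ : Submodule R ω) = Submodule.map f (I • ⊤ : Submodule R (Fin n → R)) := by
      rw [Submodule.map_smul'', Submodule.map_top, LinearMap.range_eq_top.mpr hf]
    rw [htop] at hv
    obtain ⟨w, hw, hwv⟩ := hv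
    refine ⟨v - w, by rw [map_sub, hwv, sub_self], ?_⟩
    have hwI : ∀ i, w i ∈ I := by
      intro i
      have : (I • ⊤ : Submodule R (Fin n → R)) ≤ Submodule.comap (LinearMap.proj i) I := by
        refine Submodule.smul_le.mpr fun r hr x _ => ?_
        exact I.mul_mem_right _ hr
      exact this hw
    ext i
    rw [Pi.sub_apply, map_sub, Ideal.Quotient.eq_zero_iff_mem.mpr (hwI i), sub_zero]
  · rintro ⟨u, hu, rfl⟩
    rw [LinearMap.mem_ker, baseF_mk, hu]
    rfl

/-- Base change of `g : R^m → R^n` to `R / I`. -/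
noncomputable def baseH (g : (Fin m → R) →ₗ[R] (Fin n → R)) :
    (Fin m → R ⧸ I) →ₗ[R ⧸ I] (Fin n → R ⧸ I) :=
  Fintype.linearCombination (R ⧸ I) (fun j i => Ideal.Quotient.mk I (g (Pi.single j 1) i))

lemma baseH_mk (g : (Fin m → R) →ₗ[R] (Fin n → R)) (v : Fin m → R) :
    baseH I g (fun i => Ideal.Quotient.mk I (v i)) = fun i => Ideal.Quotient.mk I (g v i) := by
  conv_rhs => rw [eq_sum_single v]
  ext i
  rw [baseH, Fintype.linearCombination_apply, map_sum, Finset.sum_apply, Finset.sum_apply, map_sum]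
  refine Finset.sum_congr rfl fun j _ => ?_
  rw [map_smul, Pi.smul_apply, Pi.smul_apply, smul_eq_mul, smul_eq_mul, map_mul]

lemma baseH_range {f : (Fin n → R) →ₗ[R] ω} (hf : Function.Surjective f)
    {g : (Fin m → R) →ₗ[R] (Fin n → R)} (hg : LinearMap.range g = LinearMap.ker f) :
    LinearMap.range (baseH I g) = LinearMap.ker (baseF I f) := by
  apply le_antisymm
  · rintro _ ⟨w, rfl⟩
    obtain ⟨v, rfl⟩ := exists_lift I w
    rw [LinearMap.mem_ker, baseH_mk, baseF_mk]
    have : g v ∈ LinearMap.ker f := by rw [← hg]; exact ⟨v, rfl⟩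
    rw [LinearMap.mem_ker.mp this]
    rfl
  · intro w hw
    obtain ⟨u, hu, rfl⟩ := (mem_ker_baseF I hf w).mp hw
    have hu' : u ∈ LinearMap.range g := by rw [hg]; exact hu
    obtain ⟨v, rfl⟩ := hu'
    exact ⟨fun i => Ideal.Quotient.mk I (v i), baseH_mk I g v⟩

end Rect

theorem reduction_rect (R : Type u) [CommRing R] [IsLocalRing R] [IsNoetherianRing R]
    (ω : Type u) [AddCommGroup ω] [Module R ω] [Module.Finite R ω]
    (h0 : ∀ i : ℕ, (i : WithBot ℕ∞) ≠ ringKrullDim R →
      Subsingleton (Ext (ModuleCat.of R (IsLocalRing.ResidueField R)) (ModuleCat.of R ω) i))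
    (h1 : ∀ i : ℕ, (i : WithBot ℕ∞) = ringKrullDim R →
      Module.length R
        (Ext (ModuleCat.of R (IsLocalRing.ResidueField R)) (ModuleCat.of R ω) i) = 1)
    (n : ℕ) (f : (Fin n → R) →ₗ[R] ω) (hf : Function.Surjective f)
    (hmin : ∀ m : ℕ, ∀ h : (Fin m → R) →ₗ[R] ω, Function.Surjective h → n ≤ m)
    (rs : List R) (hregR : IsRegular R rs) (hregω : IsRegular ω rs)
    (hlen : (rs.length : WithBot ℕ∞) = ringKrullDim R) (I : Ideal R) (hI : I = Ideal.ofList rs) :
    ∃ (_ : IsLocalRing (R ⧸ I)) (_ : IsArtinianRing (R ⧸ I))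
      (_ : Nontrivial (ω ⧸ (I • ⊤ : Submodule R ω))),
      I ≤ maximalIdeal R ∧
      (∀ v ∈ LinearMap.ker (baseF I f), ∀ i, v i ∈ maximalIdeal (R ⧸ I)) ∧
      (∀ c : R ⧸ I, (∀ e : ω ⧸ (I • ⊤ : Submodule R ω), c • e = 0) → c = 0) ∧
      (∀ φ : (ω ⧸ (I • ⊤ : Submodule R ω)) →ₗ[R ⧸ I] (ω ⧸ (I • ⊤ : Submodule R ω)),
        ∃ c : R ⧸ I, ∀ e, φ e = c • e) ∧
      (∀ (X : Type u) [AddCommGroup X] [Module (R ⧸ I) X], Module.Finite (R ⧸ I) X →
        Module.length (R ⧸ I) (X →ₗ[R ⧸ I] (ω ⧸ (I • ⊤ : Submodule R ω))) =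
          Module.length (R ⧸ I) X) := by
  obtain ⟨d, hd⟩ : ∃ d : ℕ, ringKrullDim R = (d : WithBot ℕ∞) := ⟨rs.length, hlen.symm⟩
  have hlen' : rs.length = d := by
    rw [hd] at hlen
    exact_mod_cast hlen
  simp only [hd, ne_eq, Nat.cast_inj] at h0 h1
  have h1' := h1 d rfl
  have hntR : I ≠ ⊤ := by
    intro h
    have h2 := hregR.top_ne_smul
    rw [← hI, h] at h2
    exact h2 (by simp)
  have hIm : I ≤ maximalIdeal R := IsLocalRing.le_maximalIdeal hntR
  have hdim : ringKrullDim (R ⧸ I) = 0 := by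
    have := ringKrullDim_add_length_eq_ringKrullDim_of_isRegular rs hregR
    rw [← hI, hlen', hd] at this
    have hb : ringKrullDim (R ⧸ I) ≠ ⊥ := by
      intro h
      rw [h, WithBot.bot_add] at this
      exact absurd this.symm (WithBot.natCast_ne_bot (α := ℕ∞) d)
    obtain ⟨x, hx⟩ := WithBot.ne_bot_iff_exists.mp hb
    rw [← hx] at this ⊢
    have h3 : x + (d : ℕ∞) = (0 : ℕ∞) + (d : ℕ∞) := by
      rw [zero_add]
      exact_mod_cast this
    have h4 : x = 0 := ENat.add_left_injective_of_ne_top (ENat.natCast_ne_top d) h3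
    rw [h4]
    rfl
  have hnt : Nontrivial (R ⧸ I) := Ideal.Quotient.nontrivial_iff.mpr hntR
  have hloc : IsLocalRing (R ⧸ I) :=
    IsLocalRing.of_surjective' (Ideal.Quotient.mk I) Ideal.Quotient.mk_surjective
  have hart : IsArtinianRing (R ⧸ I) := by
    rw [isArtinianRing_iff_krullDimLE_zero]
    rw [Ring.KrullDimLE, Order.krullDimLE_iff]
    exact hdim.le
  let e : (R ⧸ I) →ₛₗ[Ideal.Quotient.mk I] (R ⧸ I) := ⟨.id _, fun _ _ => rfl⟩
  have hA : IsArtinian R (R ⧸ I) :=
    (e.isArtinian_iff_of_bijective Function.bijective_id).mpr hart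
  have hN : IsNoetherian R (R ⧸ I) :=
    (e.isNoetherian_iff_of_bijective Function.bijective_id).mpr inferInstance
  have hE : ∀ r ∈ I, ∀ x : ω ⧸ (I • ⊤ : Submodule R ω), r • x = 0 := by
    intro r hr x
    obtain ⟨y, rfl⟩ := Submodule.mkQ_surjective _ x
    rw [Submodule.mkQ_apply, ← Submodule.Quotient.mk_smul, Submodule.Quotient.mk_eq_zero]
    exact Submodule.smul_mem_smul hr trivial
  have hlenX : ∀ (X : Type u) [AddCommGroup X] [Module R X], Module.Finite R X →
      (∀ r ∈ I, ∀ x : X, r • x = 0) →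
      Module.length R (X →ₗ[R] (ω ⧸ (I • ⊤ : Submodule R ω))) = Module.length R X := by
    intro X _ _ hfX hX
    obtain ⟨hXA, hXN⟩ := finite_length_of_killed I hA hN X hX
    have hXfl : IsFiniteLength R X := isFiniteLength_iff_isNoetherian_isArtinian.mpr ⟨hXN, hXA⟩
    have e1 := (ext_of_isFiniteLength (ModuleCat.of R ω) d (fun i hi => h0 i hi) h1' X hXfl).2
    have e2 := length_ext_eq_length_hom X rs ω hregω (fun r hr => by
      rw [Module.mem_annihilator]
      exact hX r (by rw [hI]; exact Ideal.subset_span hr))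
    rw [hlen', e1] at e2
    rw [e2, hI]
  refine ⟨hloc, hart, ?_, hIm, ?_, ?_, ?_, ?_⟩
  · rw [hI]
    exact hregω.quot_ofList_smul_nontrivial ⊤
  · intro v hv i
    obtain ⟨u, hu, rfl⟩ := (mem_ker_baseF I hf v).mp hv
    have h6 : u i ∈ IsLocalRing.maximalIdeal R :=
      mem_maximalIdeal_of_minimal f hf hmin u hu i
    by_contra hcon
    rw [IsLocalRing.mem_maximalIdeal, mem_nonunits_iff, not_not] at hcon
    have : IsLocalHom (Ideal.Quotient.mk I) :=
      IsLocalHom.of_surjective (Ideal.Quotient.mk I) Ideal.Quotient.mk_surjective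
    have h7 := isUnit_of_map_unit (Ideal.Quotient.mk I) _ hcon
    exact (mem_nonunits_iff.mp ((IsLocalRing.mem_maximalIdeal _).mp h6)) h7
  · intro s hs
    obtain ⟨r, rfl⟩ := Ideal.Quotient.mk_surjective s
    rw [Ideal.Quotient.eq_zero_iff_mem]
    exact mem_of_kills I hA hN (ω ⧸ (I • ⊤ : Submodule R ω)) hE hlenX r fun x => hs x
  · intro φ
    obtain ⟨r, hr⟩ := exists_homothety I hA hN (ω ⧸ (I • ⊤ : Submodule R ω)) hE hlenX
      (φ.restrictScalars R)
    exact ⟨Ideal.Quotient.mk I r, fun x => hr x⟩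
  · intro X _ _ hfX
    let _ : Module R X := Module.compHom X (Ideal.Quotient.mk I)
    have _ : IsScalarTower R (R ⧸ I) X := ⟨fun a b x => by
      obtain ⟨b, rfl⟩ := Ideal.Quotient.mk_surjective b
      change (Ideal.Quotient.mk I (a * b)) • x = (Ideal.Quotient.mk I a) • _
      rw [map_mul, mul_smul]⟩
    have hfin : Module.Finite R X := Module.Finite.trans (R ⧸ I) X
    have h3 := hlenX X hfin (fun r hr x => by
      change (Ideal.Quotient.mk I r) • x = 0
      rw [Ideal.Quotient.eq_zero_iff_mem.mpr hr, zero_smul])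
    have h4 : Module.length R X = Module.length (R ⧸ I) X :=
      Module.length_eq_of_surjective (S := R) (R := R ⧸ I) (M := X) Ideal.Quotient.mk_surjective
    have h5 : Module.length R (X →ₗ[R] (ω ⧸ (I • ⊤ : Submodule R ω))) =
        Module.length R (X →ₗ[R ⧸ I] (ω ⧸ (I • ⊤ : Submodule R ω))) :=
      (LinearMap.extendScalarsOfSurjectiveEquiv (R := R) (S := R ⧸ I) (M := X)
        (N := ω ⧸ (I • ⊤ : Submodule R ω)) Ideal.Quotient.mk_surjective).length_eq
    have h6 : Module.length R (X →ₗ[R ⧸ I] (ω ⧸ (I • ⊤ : Submodule R ω))) =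
        Module.length (R ⧸ I) (X →ₗ[R ⧸ I] (ω ⧸ (I • ⊤ : Submodule R ω))) :=
      Module.length_eq_of_surjective (S := R) (R := R ⧸ I)
        (M := X →ₗ[R ⧸ I] (ω ⧸ (I • ⊤ : Submodule R ω))) Ideal.Quotient.mk_surjective
    rw [← h6, ← h5, h3, h4]

/-- A maximal regular sequence on `R` and `ω` inside the square of the maximal ideal. -/
theorem exists_regular_sq (R : Type u) [CommRing R] [IsLocalRing R] [IsNoetherianRing R]
    (M N : Type u) [AddCommGroup M] [Module R M] [Module.Finite R M] [Nontrivial M]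
    [AddCommGroup N] [Module R N] [Module.Finite R N] [Nontrivial N] (d : ℕ)
    (hM : ∀ i < d, Subsingleton
      (Ext (ModuleCat.of R (IsLocalRing.ResidueField R)) (ModuleCat.of R M) i))
    (hN : ∀ i < d, Subsingleton
      (Ext (ModuleCat.of R (IsLocalRing.ResidueField R)) (ModuleCat.of R N) i)) :
    ∃ rs : List R, rs.length = d ∧ (∀ r ∈ rs, r ∈ IsLocalRing.maximalIdeal R ^ 2) ∧
      IsRegular M rs ∧ IsRegular N rs := by
  have hfinres : Module.Finite R (ModuleCat.of R (IsLocalRing.ResidueField R)) :=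
    inferInstanceAs (Module.Finite R (R ⧸ IsLocalRing.maximalIdeal R))
  have hfinMN : Module.Finite R (ModuleCat.of R (M × N)) :=
    inferInstanceAs (Module.Finite R (M × N))
  obtain ⟨rs, h1, h2, h3⟩ := ModuleCat.exists_isRegular_of_exists_subsingleton_ext
    (IsLocalRing.maximalIdeal R ^ 2) d (ModuleCat.of R (M × N)) (by
      refine lt_of_le_of_ne le_top ?_
      intro h
      have h4 := Submodule.top_ne_ideal_smul_of_le_jacobson_annihilator (R := R) (M := M × N)
        (I := IsLocalRing.maximalIdeal R) (IsLocalRing.maximalIdeal_le_jacobson _)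
      have h5 : (⊤ : Submodule R (M × N)) ≤ IsLocalRing.maximalIdeal R • ⊤ := by
        have h6 : (IsLocalRing.maximalIdeal R ^ 2 • ⊤ : Submodule R (M × N)) ≤
            IsLocalRing.maximalIdeal R • ⊤ :=
          Submodule.smul_mono_left (Ideal.pow_le_self two_ne_zero)
        exact (show (⊤ : Submodule R (M × N)) ≤
          (IsLocalRing.maximalIdeal R ^ 2 • ⊤ : Submodule R (M × N)) from h.ge).trans h6
      exact h4 (top_le_iff.mp h5).symm)
    (ModuleCat.of R (IsLocalRing.ResidueField R)) (by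
      have : Module.support R (R ⧸ IsLocalRing.maximalIdeal R) =
          PrimeSpectrum.zeroLocus ((IsLocalRing.maximalIdeal R ^ 2 : Ideal R) : Set R) := by
        rw [Module.support_eq_zeroLocus, Ideal.annihilator_quotient,
          PrimeSpectrum.zeroLocus_pow _ two_ne_zero]
      exact this)
    (fun i hi => subsingleton_ext_prod _ M N i (hM i hi) (hN i hi))
  have hw : IsWeaklyRegular (M × N) rs := h3.toIsWeaklyRegular
  have h2' : ∀ r ∈ rs, r ∈ IsLocalRing.maximalIdeal R := fun r hr =>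
    Ideal.pow_le_self two_ne_zero (h2 r hr)
  refine ⟨rs, h1, h2, ?_, ?_⟩
  · exact (IsLocalRing.isRegular_iff_isWeaklyRegular_of_subset_maximalIdeal h2').mpr
      (isWeaklyRegular_of_retract (LinearMap.inl R M N) (LinearMap.fst R M N) (fun x => rfl) hw)
  · exact (IsLocalRing.isRegular_iff_isWeaklyRegular_of_subset_maximalIdeal h2').mpr
      (isWeaklyRegular_of_retract (LinearMap.inr R M N) (LinearMap.snd R M N) (fun x => rfl) hw)

end Pool.Agent.MP_e3346b_h37
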