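import Pool.Agent.Lib.MP_e3346b_ag_h37.Red

/-!
# MP_e3346b_ag: homomorphisms from the canonical module to the ring (helper37)
-/

set_option autoImplicit false

universe u v

namespace Pool.Agent.MP_e3346b_h37

open Pool.Agent.MP_e3346b IsLocalRing

section Loc

variable {S : Type u} [CommRing S] [IsLocalRing S] {E : Type v} [AddCommGroup E] [Module S E]
  {r k : ℕ}

/-- a presentation with coefficients in the maximal ideal is minimal -/
lemma le_of_surj (F : (Fin r → S) →ₗ[S] E) (hF : Function.Surjective F)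
    (hmem : ∀ v ∈ LinearMap.ker F, ∀ i, v i ∈ maximalIdeal S)
    (h : (Fin k → S) →ₗ[S] E) (hh : Function.Surjective h) : r ≤ k := by
  have hone : Module.length S (S ⧸ maximalIdeal S) = 1 := by
    rw [Module.length_eq_one_iff]
    exact isSimpleModule_iff_isCoatom.mpr
      (Ideal.isMaximal_def.mp (IsLocalRing.maximalIdeal.isMaximal S))
  let q : (Fin r → S) →ₗ[S] (Fin r → S ⧸ maximalIdeal S) :=
    LinearMap.pi fun i => (Submodule.mkQ (maximalIdeal S)).comp (LinearMap.proj i)
  have hq : Function.Surjective q := by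
    intro w
    choose wt hwt using fun i => Submodule.mkQ_surjective (maximalIdeal S) (w i)
    exact ⟨wt, funext hwt⟩
  have hker : LinearMap.ker F ≤ LinearMap.ker q := by
    intro v hv
    rw [LinearMap.mem_ker]
    ext i
    change (Submodule.Quotient.mk (v i) : S ⧸ maximalIdeal S) = 0
    rw [Submodule.Quotient.mk_eq_zero]
    exact hmem v hv i
  let e := F.quotKerEquivOfSurjective hF
  let g : E →ₗ[S] (Fin r → S ⧸ maximalIdeal S) :=
    ((LinearMap.ker F).liftQ q hker).comp e.symm.toLinearMap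
  have hg : Function.Surjective g := by
    intro w
    obtain ⟨v, rfl⟩ := hq w
    refine ⟨e (Submodule.Quotient.mk v), ?_⟩
    change ((LinearMap.ker F).liftQ q hker) (e.symm (e (Submodule.Quotient.mk v))) = q v
    rw [e.symm_apply_apply]
    simp
  have h1 := length_le_of_gen (S := S) (g.comp h) (hg.comp hh) (maximalIdeal S) (by
    intro c hc w
    ext i
    obtain ⟨a, ha⟩ := Submodule.mkQ_surjective (maximalIdeal S) (w i)
    rw [Pi.smul_apply, ← ha, ← map_smul]
    change (Submodule.Quotient.mk (c • a) : S ⧸ maximalIdeal S) = 0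
    rw [Submodule.Quotient.mk_eq_zero]
    exact (maximalIdeal S).mul_mem_right _ hc)
  rw [hone, mul_one, Nat.card_fin, Module.length_pi, hone, mul_one] at h1
  simpa using h1

end Loc

variable {S : Type u} [CommRing S] [IsLocalRing S] {E : Type u} [AddCommGroup E] [Module S E]
  {r m : ℕ}

/-- A homomorphism `ψ : E → S` with `ψ w ∉ m ^ 2` forces `m ≥ 2 r - 2` relations. -/
theorem trace_ineq [IsArtinianRing S] (hr : 2 ≤ r)
    (F : (Fin r → S) →ₗ[S] E) (hF : Function.Surjective F)
    (hmem : ∀ v ∈ LinearMap.ker F, ∀ i, v i ∈ maximalIdeal S)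
    (G : (Fin m → S) →ₗ[S] (Fin r → S)) (hG : LinearMap.range G = LinearMap.ker F)
    (hfaith : ∀ c : S, (∀ e : E, c • e = 0) → c = 0)
    (hend : ∀ φ : E →ₗ[S] E, ∃ c : S, ∀ e, φ e = c • e)
    (hlen : ∀ (X : Type u) [AddCommGroup X] [Module S X], Module.Finite S X →
      Module.length S (X →ₗ[S] E) = Module.length S X)
    (ψ : E →ₗ[S] S) (w : E) (hψ : ψ w ∉ maximalIdeal S * maximalIdeal S) :
    2 * r ≤ m + 2 := by
  classical
  have hxW : ∀ e : E, ψ w • e ∈ Submodule.span S {w} := by
    intro e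
    obtain ⟨c, hc⟩ := hend ((LinearMap.toSpanSingleton S E e).comp ψ)
    have h1 := hc w
    rw [LinearMap.comp_apply, LinearMap.toSpanSingleton_apply] at h1
    rw [h1]
    exact Submodule.smul_mem _ _ (Submodule.mem_span_singleton_self w)
  have hxm : ψ w ∈ maximalIdeal S := by
    by_contra hu
    have hu2 : IsUnit (ψ w) := by
      rwa [IsLocalRing.mem_maximalIdeal, mem_nonunits_iff, not_not] at hu
    obtain ⟨s, hs⟩ := hu2.exists_left_inv
    let h : (Fin 1 → S) →ₗ[S] E := Fintype.linearCombination S (fun _ => w)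
    have hh : Function.Surjective h := by
      intro e
      obtain ⟨c, hc⟩ := Submodule.mem_span_singleton.mp (hxW e)
      refine ⟨fun _ => s * c, ?_⟩
      rw [Fintype.linearCombination_apply, Fin.sum_univ_one, mul_smul, hc, smul_smul, hs, one_smul]
    have := le_of_surj F hF hmem h hh
    omega
  obtain ⟨W, hW⟩ : ∃ W : Submodule S E, W = Submodule.span S {w} := ⟨_, rfl⟩
  -- minimal generators of `E / W`
  have hfin : Module.Finite S E := Module.Finite.of_surjective F hF
  have hex : ∃ n : ℕ, ∃ h : (Fin n → S) →ₗ[S] (E ⧸ W), Function.Surjective h :=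
    ⟨r, W.mkQ.comp F, (Submodule.mkQ_surjective W).comp hF⟩
  obtain ⟨q, hq⟩ : ∃ q, q = Nat.find hex := ⟨_, rfl⟩
  obtain ⟨d, hd⟩ : ∃ h : (Fin q → S) →ₗ[S] (E ⧸ W), Function.Surjective h := by
    rw [hq]
    exact Nat.find_spec hex
  have hdmin : ∀ k : ℕ, ∀ h : (Fin k → S) →ₗ[S] (E ⧸ W), Function.Surjective h → q ≤ k :=
    fun k h hh => by
      rw [hq]
      exact Nat.find_min' hex ⟨h, hh⟩
  choose y hy using fun i : Fin q => Submodule.mkQ_surjective W (d (Pi.single i 1))
  have hdy : ∀ c : Fin q → S, W.mkQ (∑ i, c i • y i) = d c := by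
    intro c
    rw [map_sum]
    conv_rhs => rw [show c = ∑ j, c j • (Pi.single j 1 : Fin q → S) by
      ext j; simp [Finset.sum_apply, Pi.single_apply]]
    rw [map_sum]
    exact Finset.sum_congr rfl fun i _ => by rw [map_smul, map_smul, hy]
  have hspan : Submodule.span S (Set.range y) ⊔ W = ⊤ := by
    rw [eq_top_iff]
    intro e _
    obtain ⟨c, hc⟩ := hd (W.mkQ e)
    rw [← hdy, eq_comm, ← sub_eq_zero, ← map_sub, Submodule.mkQ_apply,
      Submodule.Quotient.mk_eq_zero] at hc
    refine Submodule.mem_sup.mpr ⟨∑ i, c i • y i, ?_, _, hc, by abel⟩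
    exact sum_mem fun i _ => Submodule.smul_mem _ _ (Submodule.subset_span ⟨i, rfl⟩)
  have hmain := core_ineq hr F hF hmem G hG hfaith hend hlen (fun _ : Fin 1 => w) W
    (by rw [hW, Set.range_const]) (ψ w) hxm (by rw [hW]; exact hxW) y hspan (maximalIdeal S)
    le_rfl (by
      intro c hc i
      refine mem_maximalIdeal_of_minimal d hd hdmin c ?_ i
      rw [← hdy, Submodule.mkQ_apply, Submodule.Quotient.mk_eq_zero]
      exact hc) hψ
  -- `r ≤ q + 1`
  have hrq : r ≤ q + 1 := by
    let h : (Fin (q + 1) → S) →ₗ[S] E :=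
      Fintype.linearCombination S (Fin.cons w y : Fin (q + 1) → E)
    refine le_of_surj F hF hmem h ?_
    rw [← LinearMap.range_eq_top, Fintype.range_linearCombination, Fin.range_cons, eq_top_iff,
      ← hspan, hW, Set.insert_eq, Submodule.span_union, sup_comm]
  omega

end Pool.Agent.MP_e3346b_h37
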